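import Mathlib

section

/-!
Gap theorem for the existential theory of the reals (MP_6ff0c5_lc): the sum of the absolute values of the
coefficients of an integer polynomial.
-/

set_option autoImplicit false

open MvPolynomial Finset

namespace Pool.Agent.Lib.MP_6ff0c5_lc.Gap

variable {σ : Type*}

/-- The sum of the absolute values of the coefficients. -/
def l1 (p : MvPolynomial σ ℤ) : ℕ := ∑ m ∈ p.support, (p.coeff m).natAbs

theorem l1_eq_of_subset {p : MvPolynomial σ ℤ} {s : Finset (σ →₀ ℕ)} (h : p.support ⊆ s) :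
    l1 p = ∑ m ∈ s, (p.coeff m).natAbs := by
  unfold l1
  refine sum_subset h fun m _ hm => ?_
  rw [notMem_support_iff.1 hm]
  rfl

@[simp] theorem l1_zero : l1 (0 : MvPolynomial σ ℤ) = 0 := by simp [l1]

theorem l1_monomial (m : σ →₀ ℕ) (a : ℤ) : l1 (monomial m a) = a.natAbs := by
  classical
  rw [l1_eq_of_subset (s := {m}) support_monomial_subset]
  simp

@[simp] theorem l1_C (a : ℤ) : l1 (C a : MvPolynomial σ ℤ) = a.natAbs := l1_monomial 0 a

@[simp] theorem l1_one : l1 (1 : MvPolynomial σ ℤ) = 1 := by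
  have := l1_C (σ := σ) 1
  simpa using this

@[simp] theorem l1_X (i : σ) : l1 (X i : MvPolynomial σ ℤ) = 1 := l1_monomial _ 1

theorem l1_add_le (p q : MvPolynomial σ ℤ) : l1 (p + q) ≤ l1 p + l1 q := by
  classical
  have h1 : (p + q).support ⊆ p.support ∪ q.support := support_add
  rw [l1_eq_of_subset h1, l1_eq_of_subset (p := p) (s := p.support ∪ q.support) subset_union_left,
    l1_eq_of_subset (p := q) (s := p.support ∪ q.support) subset_union_right, ← sum_add_distrib]
  refine sum_le_sum fun m _ => ?_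
  rw [coeff_add]
  exact Int.natAbs_add_le _ _

@[simp] theorem l1_neg (p : MvPolynomial σ ℤ) : l1 (-p) = l1 p := by
  unfold l1
  rw [support_neg]
  simp

theorem l1_sum_le {ι : Type*} (s : Finset ι) (p : ι → MvPolynomial σ ℤ) :
    l1 (∑ i ∈ s, p i) ≤ ∑ i ∈ s, l1 (p i) := by
  classical
  induction s using Finset.induction_on with
  | empty => simp
  | insert i s hi ih =>
    rw [sum_insert hi, sum_insert hi]
    exact (l1_add_le _ _).trans (Nat.add_le_add_left ih _)

theorem l1_monomial_mul (m : σ →₀ ℕ) (a : ℤ) (q : MvPolynomial σ ℤ) :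
    l1 (monomial m a * q) ≤ a.natAbs * l1 q := by
  classical
  have h : monomial m a * q = ∑ k ∈ q.support, monomial (m + k) (a * q.coeff k) := by
    conv_lhs => rw [q.as_sum]
    rw [mul_sum]
    refine sum_congr rfl fun k _ => ?_
    rw [monomial_mul]
  rw [h]
  refine (l1_sum_le _ _).trans ?_
  unfold l1
  rw [mul_sum]
  refine sum_le_sum fun k _ => ?_
  have := l1_monomial (m + k) (a * q.coeff k)
  unfold l1 at this
  rw [this, Int.natAbs_mul]

theorem l1_mul_le (p q : MvPolynomial σ ℤ) : l1 (p * q) ≤ l1 p * l1 q := by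
  classical
  have h : p * q = ∑ m ∈ p.support, monomial m (p.coeff m) * q := by
    conv_lhs => rw [p.as_sum]
    rw [sum_mul]
  rw [h]
  refine (l1_sum_le _ _).trans ?_
  have : l1 p * l1 q = ∑ m ∈ p.support, (p.coeff m).natAbs * l1 q := by
    conv_lhs => rw [l1]
    rw [sum_mul]
  rw [this]
  exact sum_le_sum fun m _ => l1_monomial_mul _ _ _

theorem l1_prod_le {ι : Type*} (s : Finset ι) (p : ι → MvPolynomial σ ℤ) :
    l1 (∏ i ∈ s, p i) ≤ ∏ i ∈ s, l1 (p i) := by
  classical
  induction s using Finset.induction_on with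
  | empty => simp
  | insert i s hi ih =>
    rw [prod_insert hi, prod_insert hi]
    exact (l1_mul_le _ _).trans (Nat.mul_le_mul_left _ ih)

theorem l1_zsmul_le (a : ℤ) (p : MvPolynomial σ ℤ) : l1 (C a * p) ≤ a.natAbs * l1 p := by
  have := l1_mul_le (C a) p
  rwa [l1_C] at this

/-- The determinant is bounded by the product of the row sums. -/
theorem l1_det_le {ι : Type*} [Fintype ι] [DecidableEq ι] (M : Matrix ι ι (MvPolynomial σ ℤ)) {B : ℕ}
    (h : ∀ i, ∑ j, l1 (M i j) ≤ B) : l1 M.det ≤ B ^ Fintype.card ι := by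
  classical
  rw [← Matrix.det_transpose, Matrix.det_apply]
  refine (l1_sum_le _ _).trans ?_
  have h1 : ∀ s : Equiv.Perm ι, l1 (Equiv.Perm.sign s • ∏ i, M.transpose (s i) i) ≤ ∏ i, l1 (M i (s i)) := by
    intro s
    rcases Int.units_eq_one_or (Equiv.Perm.sign s) with h | h
    · rw [h, one_smul]
      exact l1_prod_le _ _
    · rw [h, Units.neg_smul, one_smul, l1_neg]
      exact l1_prod_le _ _
  refine (sum_le_sum fun s _ => h1 s).trans ?_
  have h2 : ∑ s : Equiv.Perm ι, ∏ i, l1 (M i (s i)) ≤ ∑ f : ι → ι, ∏ i, l1 (M i (f i)) := by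
    have e : ∑ s : Equiv.Perm ι, ∏ i, l1 (M i (s i)) =
        ∑ f ∈ univ.image (fun s : Equiv.Perm ι => (s : ι → ι)), ∏ i, l1 (M i (f i)) := by
      rw [sum_image]
      intro s _ s' _ h
      exact DFunLike.coe_injective h
    rw [e]
    exact sum_le_sum_of_subset (subset_univ _)
  refine h2.trans ?_
  have h3 : ∑ f : ι → ι, ∏ i, l1 (M i (f i)) = ∏ i, ∑ j, l1 (M i j) := by
    rw [prod_univ_sum]
    simp [Fintype.piFinset_univ]
  rw [h3, ← Finset.card_univ]
  exact prod_le_pow_card _ _ _ fun i _ => h i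

theorem l1_rename_le {τ : Type*} (f : σ → τ) (p : MvPolynomial σ ℤ) : l1 (rename f p) ≤ l1 p := by
  classical
  have h : rename f p = ∑ m ∈ p.support, monomial (m.mapDomain f) (p.coeff m) := by
    conv_lhs => rw [p.as_sum]
    rw [map_sum]
    refine sum_congr rfl fun m _ => ?_
    rw [rename_monomial]
  rw [h]
  refine (l1_sum_le _ _).trans ?_
  unfold l1
  refine sum_le_sum fun m _ => ?_
  have := l1_monomial (m.mapDomain f) (p.coeff m)
  unfold l1 at this
  rw [this]

end Pool.Agent.Lib.MP_6ff0c5_lc.Gap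
end

section

/-!
MP_6ff0c5_lc, part B, soundness: the crossbar as a system of inequalities for arrays (pure real inequalities).
-/

set_option autoImplicit false

namespace Pool.Agent.Lib.MP_6ff0c5_lc.N

private lemma arr_sum (f : ℕ → ℝ) (n : ℕ) :
    ((List.range n).map f).sum = ∑ j ∈ Finset.range n, f j := by
  induction n with
  | zero => simp
  | succ n ih =>
    rw [List.range_succ, List.map_append, List.sum_append, ih, Finset.sum_range_succ]
    simp

/-- the lanes -/
private lemma arr_lane {ns nl : ℕ} {tap ended : ℕ → ℕ → Bool}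
    (hs : ∀ l < ns, ∀ j, ended (l + 1) j = (ended l j || tap l j))
    {E m : ℝ} (hE : 0 ≤ E) (hm : 1 ≤ m) {yin yout : ℕ → ℕ → ℝ} {src : ℕ → ℝ}
    (h1 : ∀ l < ns, ∀ j < nl, ended l j = true → yin l j - m * E ≤ yout l j)
    (h2 : ∀ l, l + 1 < ns → ∀ j < nl, ended (l + 1) j = true → yout (l + 1) j - E ≤ yin l j)
    (h2' : ∀ j < nl, src j - E ≤ yin (ns - 1) j) {j : ℕ} (hj : j < nl) :
    ∀ k l : ℕ, l + k + 1 = ns → ended (l + 1) j = true →
      src j - ((k : ℝ) + 1) * ((m + 1) * E) ≤ yin l j := by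
  have hmE : E ≤ (m + 1) * E := by nlinarith
  intro k
  induction k with
  | zero =>
    intro l hl _
    have e : l = ns - 1 := by omega
    subst e
    have := h2' j hj
    push_cast
    linarith
  | succ k ih =>
    intro l hl he
    have hl1 : l + 1 < ns := by omega
    have he2 : ended (l + 1 + 1) j = true := by rw [hs (l + 1) hl1, he]; rfl
    have h3 := ih (l + 1) (by omega) he2
    have h4 := h1 (l + 1) hl1 j hj he
    have h5 := h2 l hl1 j hj he
    push_cast
    linarith

private lemma arr_lane' {ns nl : ℕ} {tap ended : ℕ → ℕ → Bool}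
    (hs : ∀ l < ns, ∀ j, ended (l + 1) j = (ended l j || tap l j))
    {E m : ℝ} (hE : 0 ≤ E) (hm : 1 ≤ m) {yin yout : ℕ → ℕ → ℝ} {src : ℕ → ℝ}
    (h1 : ∀ l < ns, ∀ j < nl, ended l j = true → yin l j - m * E ≤ yout l j)
    (h2 : ∀ l, l + 1 < ns → ∀ j < nl, ended (l + 1) j = true → yout (l + 1) j - E ≤ yin l j)
    (h2' : ∀ j < nl, src j - E ≤ yin (ns - 1) j) {j : ℕ} (hj : j < nl) {l : ℕ} (hl : l < ns)
    (he : ended (l + 1) j = true) : src j - (ns : ℝ) * ((m + 1) * E) ≤ yin l j := by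
  have h3 := arr_lane hs hE hm h1 h2 h2' hj (ns - 1 - l) l (by omega) he
  have h4 : (((ns - 1 - l : ℕ) : ℝ) + 1) ≤ (ns : ℝ) := by
    have : ns - 1 - l + 1 ≤ ns := by omega
    exact_mod_cast this
  have h5 : 0 ≤ (m + 1) * E := by positivity
  have h6 := mul_le_mul_of_nonneg_right h4 h5
  linarith

/-- the strings -/
private lemma arr_string {nl : ℕ} {E m : ℝ} {t : ℕ → Bool} {y si so : ℕ → ℝ}
    (h3 : ∀ j < nl, si j + (if t j then y j else 0) - m * E ≤ so j)
    (h4 : ∀ j, j + 1 < nl → so j - E ≤ si (j + 1)) (h5 : 0 ≤ si 0) :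
    ∀ j < nl, (∑ i ∈ Finset.range j, if t i then y i else 0) - (j : ℝ) * ((m + 1) * E) ≤ si j := by
  intro j
  induction j with
  | zero => intro _; simpa using h5
  | succ j ih =>
    intro hj
    have h6 := ih (by omega)
    have h7 := h3 j (by omega)
    have h8 := h4 j hj
    rw [Finset.sum_range_succ]
    push_cast
    linarith

private lemma arr_up {nl : ℕ} {E m c : ℝ} {t : ℕ → Bool} {y si so : ℕ → ℝ}
    (hc : 0 ≤ c) (hE : 0 ≤ E)
    (h3 : ∀ j < nl, si j + (if t j then y j else 0) - m * E ≤ so j)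
    (h4 : ∀ j, j + 1 < nl → so j - E ≤ si (j + 1)) (h6 : so (nl - 1) ≤ 0)
    (hy : ∀ j < nl, t j = true → -c ≤ y j) :
    ∀ k j : ℕ, j + k + 1 = nl → si j ≤ ((k : ℝ) + 1) * (c + (m + 1) * E) := by
  have hy' : ∀ j < nl, -c ≤ (if t j then y j else 0) := by
    intro j hj
    split_ifs with h
    · exact hy j hj h
    · linarith
  intro k
  induction k with
  | zero =>
    intro j hj
    have e : j = nl - 1 := by omega
    subst e
    have h7 := h3 (nl - 1) (by omega)
    have h8 := hy' (nl - 1) (by omega)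
    push_cast
    linarith
  | succ k ih =>
    intro j hj
    have h7 := h3 j (by omega)
    have h8 := hy' j (by omega)
    have h9 := h4 j (by omega)
    have h10 := ih (j + 1) (by omega)
    push_cast
    linarith

/-- Lanes `j < nl` run from the right (`l = ns - 1`) to the left, the lane `j` ends at the first (leftmost) string that taps
it: `ended l j` says that some string `l' < l` taps it. Strings `l < ns` run from `j = 0` upwards to `j = nl - 1`, they start with a nonnegative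
value and end with a nonpositive one.

Proof. Put `n = ns + nl`, `β = Bd + 3 n m E`.
* Lane: `src j - 2 n m E ≤ yin l j` whenever `ended (l+1) j` (induction from `l = ns - 1` down, `h1`, `h2`, `h2'`, `m + 1 ≤ 2 m`).
* String: by `h3`, `h4`: for `j₁ ≤ j₂`: `sin l j₁ + ∑_{j₁ ≤ j ≤ j₂, tap} yin l j - 2 n m E ≤ sout l j₂`. With `h5`, `h6`:
  `∑_{tap} yin l j ≤ 2 n m E`, hence the first claim: `∑_{tap} src j ≤ 2 n m E + nl * 2 n m E ≤ 5 m n² E`.
* Second claim: a tapped `yin l j ≤ 2 n m E + (nl - 1) β ≤ (n + 1) β`; going to the right from the string that ends the lane: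
  `yin l j ≤ yout l j + m E ≤ yin (l-1) j + (m+1) E`, so all `yin l j ≤ (n + 2) β`, `src j`, `yout l j ≤ (n + 3) β`;
  `sin l j ≥ -n β - β` and from above by the rest of the string: `sin l j ≤ n β + β`; `|sout l j| ≤ (n + 3) β`;
  finally `(n + 3) β ≤ 4 n β ≤ 12 n² (Bd + m E)` as `n ≥ 2`. -/
theorem crossbar_arrays {ns nl : ℕ} (hns : 0 < ns) (hnl : 0 < nl) (tap ended : ℕ → ℕ → Bool)
    (h0 : ∀ j, ended 0 j = false) (hs : ∀ l < ns, ∀ j, ended (l + 1) j = (ended l j || tap l j))
    (hall : ∀ j < nl, ended ns j = true)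
    {E m : ℝ} (hE : 0 ≤ E) (hm : 1 ≤ m) (yin yout sin sout : ℕ → ℕ → ℝ) (src : ℕ → ℝ)
    (h1 : ∀ l < ns, ∀ j < nl, ended l j = true → yin l j - m * E ≤ yout l j)
    (h2 : ∀ l, l + 1 < ns → ∀ j < nl, ended (l + 1) j = true → yout (l + 1) j - E ≤ yin l j)
    (h2' : ∀ j < nl, src j - E ≤ yin (ns - 1) j)
    (h3 : ∀ l < ns, ∀ j < nl, sin l j + (if tap l j then yin l j else 0) - m * E ≤ sout l j)
    (h4 : ∀ l < ns, ∀ j, j + 1 < nl → sout l j - E ≤ sin l (j + 1))
    (h5 : ∀ l < ns, 0 ≤ sin l 0) (h6 : ∀ l < ns, sout l (nl - 1) ≤ 0) :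
    (∀ l < ns, ((List.range nl).map fun j => if tap l j then src j else 0).sum ≤ 5 * m * (ns + nl) ^ 2 * E) ∧
    ∀ Bd : ℝ, 0 ≤ Bd → (∀ j < nl, -Bd ≤ src j) →
      (∀ j < nl, src j ≤ 12 * (ns + nl) ^ 2 * (Bd + m * E)) ∧
      (∀ l < ns, ∀ j < nl, ended (l + 1) j = true → |yin l j| ≤ 12 * (ns + nl) ^ 2 * (Bd + m * E)) ∧
      (∀ l < ns, ∀ j < nl, ended l j = true → |yout l j| ≤ 12 * (ns + nl) ^ 2 * (Bd + m * E)) ∧
      (∀ l < ns, ∀ j < nl, |sin l j| ≤ 12 * (ns + nl) ^ 2 * (Bd + m * E) ∧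
        |sout l j| ≤ 12 * (ns + nl) ^ 2 * (Bd + m * E)) := by
  have hmE : 0 ≤ (m + 1) * E := by positivity
  have hmE1 : E ≤ (m + 1) * E := by nlinarith
  have hmE2 : (m + 1) * E ≤ 2 * (m * E) := by nlinarith
  have hmE3 : 0 ≤ m * E := by positivity
  have ha : (1 : ℝ) ≤ ns := by exact_mod_cast hns
  have hb : (1 : ℝ) ≤ nl := by exact_mod_cast hnl
  have htap : ∀ l < ns, ∀ j, tap l j = true → ended (l + 1) j = true := by
    intro l hl j h
    rw [hs l hl, h, Bool.or_true]
  have hlane : ∀ l < ns, ∀ j < nl, ended (l + 1) j = true →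
      src j - (ns : ℝ) * ((m + 1) * E) ≤ yin l j := fun l hl j hj he =>
    arr_lane' hs hE hm h1 h2 h2' hj hl he
  refine ⟨?_, ?_⟩
  · intro l hl
    rw [arr_sum]
    have h7 : ∑ j ∈ Finset.range nl, (if tap l j then src j else 0)
        ≤ ∑ j ∈ Finset.range nl, ((if tap l j then yin l j else 0) + (ns : ℝ) * ((m + 1) * E)) := by
      refine Finset.sum_le_sum fun j hj => ?_
      have hj' := Finset.mem_range.1 hj
      split_ifs with h
      · linarith [hlane l hl j hj' (htap l hl j h)]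
      · positivity
    rw [Finset.sum_add_distrib, Finset.sum_const, Finset.card_range, nsmul_eq_mul] at h7
    have h8 := arr_string (h3 l hl) (h4 l hl) (h5 l hl) (nl - 1) (by omega)
    have h9 := h3 l hl (nl - 1) (by omega)
    have h10 := h6 l hl
    have h11 : ∑ j ∈ Finset.range nl, (if tap l j then yin l j else 0)
        = (∑ j ∈ Finset.range (nl - 1), if tap l j then yin l j else 0)
          + (if tap l (nl - 1) then yin l (nl - 1) else 0) := by
      conv_lhs => rw [show nl = (nl - 1) + 1 by omega]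
      rw [Finset.sum_range_succ]
    have h12 : ((nl - 1 : ℕ) : ℝ) = (nl : ℝ) - 1 := by
      rw [Nat.cast_sub hnl]; simp
    rw [h12] at h8
    have h13 : ∑ j ∈ Finset.range nl, (if tap l j then yin l j else 0)
        ≤ (nl : ℝ) * ((m + 1) * E) := by
      rw [h11]; linarith
    have h14 : (nl : ℝ) * ((m + 1) * E) + (nl : ℝ) * ((ns : ℝ) * ((m + 1) * E))
        ≤ 5 * m * ((ns : ℝ) + nl) ^ 2 * E := by
      have e1 : (nl : ℝ) * ((m + 1) * E) + (nl : ℝ) * ((ns : ℝ) * ((m + 1) * E))
          = ((nl : ℝ) * (1 + ns)) * ((m + 1) * E) := by ring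
      have e2 : 5 * m * ((ns : ℝ) + nl) ^ 2 * E = (5 * ((ns : ℝ) + nl) ^ 2) * (m * E) := by ring
      rw [e1, e2]
      have e3 : (nl : ℝ) * (1 + ns) ≤ 2 * ((ns : ℝ) + nl) ^ 2 := by nlinarith
      calc ((nl : ℝ) * (1 + ns)) * ((m + 1) * E)
          ≤ ((nl : ℝ) * (1 + ns)) * (2 * (m * E)) :=
            mul_le_mul_of_nonneg_left hmE2 (by positivity)
        _ = (2 * ((nl : ℝ) * (1 + ns))) * (m * E) := by ring
        _ ≤ (5 * ((ns : ℝ) + nl) ^ 2) * (m * E) := by
            refine mul_le_mul_of_nonneg_right ?_ hmE3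
            nlinarith
    linarith
  · intro Bd hBd hsrc
    set c : ℝ := Bd + (ns : ℝ) * ((m + 1) * E) with hc
    have hc0 : 0 ≤ c := by positivity
    set g : ℝ := c + (m + 1) * E with hg
    have hg0 : 0 ≤ g := by positivity
    have hylow : ∀ l < ns, ∀ j < nl, ended (l + 1) j = true → -c ≤ yin l j := by
      intro l hl j hj he
      linarith [hlane l hl j hj he, hsrc j hj]
    have hylow' : ∀ l < ns, ∀ j < nl, -c ≤ (if tap l j then yin l j else 0) := by
      intro l hl j hj
      split_ifs with h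
      · exact hylow l hl j hj (htap l hl j h)
      · linarith
    -- strings
    have hsin_low : ∀ l < ns, ∀ j < nl, -((j : ℝ) * g) ≤ sin l j := by
      intro l hl j hj
      have h7 := arr_string (h3 l hl) (h4 l hl) (h5 l hl) j hj
      have h8 : ∑ i ∈ Finset.range j, (-c) ≤
          ∑ i ∈ Finset.range j, (if tap l i then yin l i else 0) :=
        Finset.sum_le_sum fun i hi => hylow' l hl i ((Finset.mem_range.1 hi).trans hj)
      rw [Finset.sum_const, Finset.card_range, nsmul_eq_mul] at h8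
      rw [hg]
      linarith
    have hsin_up : ∀ l < ns, ∀ j < nl, sin l j ≤ ((nl : ℝ) - j) * g := by
      intro l hl j hj
      have h7 := arr_up hc0 hE (h3 l hl) (h4 l hl) (h6 l hl)
        (fun j hj h => hylow l hl j hj (htap l hl j h)) (nl - 1 - j) j (by omega)
      have h8 : (((nl - 1 - j : ℕ) : ℝ) + 1) = (nl : ℝ) - j := by
        have h9 : nl - 1 - j + 1 + j = nl := by omega
        have h10 : (((nl - 1 - j : ℕ) : ℝ) + 1 + j) = nl := by exact_mod_cast h9
        linarith
      rw [h8] at h7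
      exact h7
    have hsout_up : ∀ l < ns, ∀ j < nl, sout l j ≤ ((nl : ℝ) - j - 1) * g + E := by
      intro l hl j hj
      by_cases h : j + 1 < nl
      · have h7 := hsin_up l hl (j + 1) h
        have h8 := h4 l hl j h
        push_cast at h7
        have e : ((nl : ℝ) - (j + 1)) * g = ((nl : ℝ) - j - 1) * g := by ring
        rw [e] at h7
        linarith
      · have e : nl = j + 1 := by omega
        have h7 := h6 l hl
        have e2 : nl - 1 = j := by omega
        rw [e2] at h7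
        have e3 : ((nl : ℝ) - j - 1) = 0 := by
          rw [e]; push_cast; ring
        rw [e3, zero_mul, zero_add]
        linarith
    have hsout_low : ∀ l < ns, ∀ j < nl, -(((j : ℝ) + 1) * g) ≤ sout l j := by
      intro l hl j hj
      have h7 := hsin_low l hl j hj
      have h8 := h3 l hl j hj
      have h9 := hylow' l hl j hj
      have e : ((j : ℝ) + 1) * g = (j : ℝ) * g + (c + (m + 1) * E) := by rw [hg]; ring
      rw [e]
      linarith
    have htapped : ∀ l < ns, ∀ j < nl, tap l j = true → yin l j ≤ (nl : ℝ) * g := by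
      intro l hl j hj h
      have h7 := hsin_low l hl j hj
      have h8 := h3 l hl j hj
      have h9 := hsout_up l hl j hj
      rw [if_pos h] at h8
      have e : ((nl : ℝ) - j - 1) * g = (nl : ℝ) * g - (j : ℝ) * g - g := by ring
      rw [e] at h9
      linarith
    have hyup : ∀ j < nl, ∀ l < ns, ended (l + 1) j = true →
        yin l j ≤ (nl : ℝ) * g + (l : ℝ) * ((m + 1) * E) := by
      intro j hj l
      induction l with
      | zero =>
        intro hl he
        rw [hs 0 hl, h0, Bool.false_or] at he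
        have := htapped 0 hl j hj he
        push_cast
        linarith
      | succ l ih =>
        intro hl he
        by_cases he1 : ended (l + 1) j = true
        · have h7 := ih (by omega) he1
          have h8 := h1 (l + 1) hl j hj he1
          have h9 := h2 l hl j hj he1
          push_cast
          linarith
        · rw [hs (l + 1) hl] at he
          have h7 : tap (l + 1) j = true := by
            rcases Bool.or_eq_true_iff.1 he with h | h
            · exact absurd h he1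
            · exact h
          have h8 := htapped (l + 1) hl j hj h7
          have h9 : 0 ≤ ((l + 1 : ℕ) : ℝ) * ((m + 1) * E) := by positivity
          linarith
    -- final bound
    set G : ℝ := (nl : ℝ) * g + (ns : ℝ) * ((m + 1) * E) with hG
    have hGT : G ≤ 12 * ((ns : ℝ) + nl) ^ 2 * (Bd + m * E) := by
      have e1 : G = (nl : ℝ) * Bd + ((nl : ℝ) * ns + nl + ns) * ((m + 1) * E) := by
        rw [hG, hg, hc]; ring
      rw [e1]
      have e2 : ((nl : ℝ) * ns + nl + ns) * ((m + 1) * E)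
          ≤ ((nl : ℝ) * ns + nl + ns) * (2 * (m * E)) :=
        mul_le_mul_of_nonneg_left hmE2 (by positivity)
      have e3 : (nl : ℝ) ≤ 12 * ((ns : ℝ) + nl) ^ 2 := by nlinarith
      have e4 : 2 * ((nl : ℝ) * ns + nl + ns) ≤ 12 * ((ns : ℝ) + nl) ^ 2 := by nlinarith
      have e5 := mul_le_mul_of_nonneg_right e3 hBd
      have e6 := mul_le_mul_of_nonneg_right e4 hmE3
      linarith
    have hnlg : (nl : ℝ) * g ≤ G := by
      rw [hG]
      have : 0 ≤ (ns : ℝ) * ((m + 1) * E) := by positivity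
      linarith
    have hgnl : g ≤ (nl : ℝ) * g := le_mul_of_one_le_left hg0 hb
    have hjc : ∀ j < nl, ((j : ℝ) + 1) * g ≤ (nl : ℝ) * g := by
      intro j hj
      refine mul_le_mul_of_nonneg_right ?_ hg0
      exact_mod_cast hj
    have hlc : ∀ l < ns, ((l : ℝ) + 1) * ((m + 1) * E) ≤ (ns : ℝ) * ((m + 1) * E) := by
      intro l hl
      refine mul_le_mul_of_nonneg_right ?_ hmE
      exact_mod_cast hl
    refine ⟨?_, ?_, ?_, ?_⟩
    · intro j hj
      refine le_trans ?_ hGT
      have h7 := hyup j hj (ns - 1) (by omega) (by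
        rw [Nat.sub_add_cancel hns]; exact hall j hj)
      have h8 := h2' j hj
      have h9 := hlc (ns - 1) (by omega)
      linarith
    · intro l hl j hj he
      refine le_trans ?_ hGT
      rw [abs_le]
      have h7 := hyup j hj l hl he
      have h8 := hylow l hl j hj he
      have h9 := hlc l hl
      constructor <;> linarith
    · intro l hl j hj he
      refine le_trans ?_ hGT
      have hl0 : l ≠ 0 := by
        rintro rfl
        rw [h0] at he
        exact absurd he (by simp)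
      obtain ⟨l', rfl⟩ := Nat.exists_eq_succ_of_ne_zero hl0
      have he' : ended (l' + 1 + 1) j = true := by rw [hs (l' + 1) hl, he]; rfl
      have h7 := hylow (l' + 1) hl j hj he'
      have h8 := h1 (l' + 1) hl j hj he
      have h9 := h2 l' hl j hj he
      have h10 := hyup j hj l' (by omega) he
      have h11 := hlc l' (by omega)
      rw [abs_le]
      constructor <;> linarith
    · intro l hl j hj
      have h7 := hsin_low l hl j hj
      have h8 := hsin_up l hl j hj
      have h9 := hsout_low l hl j hj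
      have h10 := hsout_up l hl j hj
      have h11 := hjc j hj
      have h12 : 0 ≤ (j : ℝ) * g := by positivity
      have e1 : ((nl : ℝ) - j) * g = (nl : ℝ) * g - (j : ℝ) * g := by ring
      have e2 : ((nl : ℝ) - j - 1) * g = (nl : ℝ) * g - (j : ℝ) * g - g := by ring
      rw [e1] at h8
      rw [e2] at h10
      refine ⟨le_trans ?_ hGT, le_trans ?_ hGT⟩
      · rw [abs_le]
        constructor <;> linarith
      · rw [abs_le]
        constructor <;> linarith

end Pool.Agent.Lib.MP_6ff0c5_lc.N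
end

section

section

/-!
Gap theorem (MP_6ff0c5_lc): Cauchy's bound for roots, leading coefficients and limits.
-/

set_option autoImplicit false

open Finset Filter Topology

namespace Pool.Agent.Lib.MP_6ff0c5_lc.Gap

/-- The sum of the absolute values of the coefficients. -/
def pl1 (p : Polynomial ℤ) : ℕ := ∑ k ∈ p.support, (p.coeff k).natAbs

theorem pl1_eq_of_subset {p : Polynomial ℤ} {s : Finset ℕ} (h : p.support ⊆ s) :
    pl1 p = ∑ m ∈ s, (p.coeff m).natAbs := by
  unfold pl1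
  refine sum_subset h fun m _ hm => ?_
  rw [Polynomial.notMem_support_iff.1 hm]
  rfl

theorem pl1_zero : pl1 0 = 0 := by simp [pl1]

theorem pl1_monomial_le (k : ℕ) (a : ℤ) : pl1 (Polynomial.monomial k a) ≤ a.natAbs := by
  rw [pl1_eq_of_subset (s := {k}) (Polynomial.support_monomial_subset k a)]
  simp

theorem pl1_add_le (p q : Polynomial ℤ) : pl1 (p + q) ≤ pl1 p + pl1 q := by
  have h1 : (p + q).support ⊆ p.support ∪ q.support := Polynomial.support_add
  rw [pl1_eq_of_subset h1, pl1_eq_of_subset (p := p) (s := p.support ∪ q.support) subset_union_left,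
    pl1_eq_of_subset (p := q) (s := p.support ∪ q.support) subset_union_right, ← sum_add_distrib]
  refine sum_le_sum fun m _ => ?_
  rw [Polynomial.coeff_add]
  exact Int.natAbs_add_le _ _

theorem pl1_sum_le {ι : Type*} (s : Finset ι) (p : ι → Polynomial ℤ) :
    pl1 (∑ i ∈ s, p i) ≤ ∑ i ∈ s, pl1 (p i) := by
  classical
  induction s using Finset.induction_on with
  | empty => simp [pl1_zero]
  | insert i s hi ih =>
    rw [sum_insert hi, sum_insert hi]
    exact (pl1_add_le _ _).trans (Nat.add_le_add_left ih _)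

/-- Cauchy's bound. -/
theorem abs_root_le {p : Polynomial ℤ} (hp : p ≠ 0) {g : ℝ} (h : Polynomial.aeval g p = 0) :
    |g| ≤ (pl1 p : ℝ) := by
  by_contra hg
  push Not at hg
  have hlc : 1 ≤ |(p.leadingCoeff : ℝ)| := by
    have h1 : p.leadingCoeff ≠ 0 := Polynomial.leadingCoeff_ne_zero.2 hp
    have h2 : 1 ≤ |p.leadingCoeff| := Int.one_le_abs h1
    exact_mod_cast h2
  have hdm : p.natDegree ∈ p.support := Polynomial.natDegree_mem_support_of_nonzero hp
  have hB : (pl1 p : ℝ) = |(p.leadingCoeff : ℝ)| + ∑ k ∈ p.support.erase p.natDegree, |((p.coeff k : ℤ) : ℝ)| := by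
    unfold pl1
    rw [← add_sum_erase _ _ hdm]
    push_cast
    congr 1
    · rw [Nat.cast_natAbs]; push_cast; rfl
    · exact sum_congr rfl fun k _ => by rw [Nat.cast_natAbs]; push_cast; rfl
  have hB1 : 1 ≤ (pl1 p : ℝ) := by
    rw [hB]
    have : 0 ≤ ∑ k ∈ p.support.erase p.natDegree, |((p.coeff k : ℤ) : ℝ)| := sum_nonneg fun _ _ => abs_nonneg _
    linarith
  have hg1 : 1 < |g| := hB1.trans_lt hg
  have hsum : (p.leadingCoeff : ℝ) * g ^ p.natDegree = -∑ k ∈ p.support.erase p.natDegree, ((p.coeff k : ℤ) : ℝ) * g ^ k := by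
    rw [Polynomial.aeval_eq_sum_range' (n := p.natDegree + 1) (by omega)] at h
    have h3 : ∑ k ∈ p.support, ((p.coeff k : ℤ) : ℝ) * g ^ k = 0 := by
      rw [← h]
      refine sum_subset_zero_on_sdiff ?_ ?_ ?_
      · intro k hk
        rw [mem_range]
        have := Polynomial.le_natDegree_of_mem_supp k hk
        omega
      · intro k hk
        rw [Finset.mem_sdiff] at hk
        rw [Polynomial.notMem_support_iff.1 hk.2]
        simp
      · intro k _
        simp
    rw [← add_sum_erase _ _ hdm] at h3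
    have : (p.coeff p.natDegree : ℝ) = p.leadingCoeff := rfl
    rw [this] at h3
    linarith
  rcases Nat.eq_zero_or_pos p.natDegree with h0 | h0
  · have : p.support.erase p.natDegree = ∅ := by
      rw [Finset.eq_empty_iff_forall_notMem]
      intro k hk
      rw [mem_erase] at hk
      have := Polynomial.le_natDegree_of_mem_supp k hk.2
      omega
    rw [this, h0] at hsum
    simp at hsum
    exact hp hsum
  · have h4 : |g| ^ p.natDegree ≤ (∑ k ∈ p.support.erase p.natDegree, |((p.coeff k : ℤ) : ℝ)|) * |g| ^ (p.natDegree - 1) := by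
      calc |g| ^ p.natDegree ≤ |(p.leadingCoeff : ℝ)| * |g| ^ p.natDegree :=
            le_mul_of_one_le_left (by positivity) hlc
        _ = |(p.leadingCoeff : ℝ) * g ^ p.natDegree| := by rw [abs_mul, abs_pow]
        _ = |∑ k ∈ p.support.erase p.natDegree, ((p.coeff k : ℤ) : ℝ) * g ^ k| := by rw [hsum, abs_neg]
        _ ≤ ∑ k ∈ p.support.erase p.natDegree, |((p.coeff k : ℤ) : ℝ) * g ^ k| := abs_sum_le_sum_abs _ _
        _ ≤ ∑ k ∈ p.support.erase p.natDegree, |((p.coeff k : ℤ) : ℝ)| * |g| ^ (p.natDegree - 1) := by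
            refine sum_le_sum fun k hk => ?_
            rw [mem_erase] at hk
            have := Polynomial.le_natDegree_of_mem_supp k hk.2
            rw [abs_mul, abs_pow]
            refine mul_le_mul_of_nonneg_left ?_ (abs_nonneg _)
            exact pow_le_pow_right₀ hg1.le (by omega)
        _ = _ := by rw [sum_mul]
    have h5 : |g| ^ p.natDegree = |g| * |g| ^ (p.natDegree - 1) := by
      rw [← pow_succ']
      congr 1
      omega
    rw [h5] at h4
    have h6 : 0 < |g| ^ (p.natDegree - 1) := by positivity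
    have h7 := le_of_mul_le_mul_right h4 h6
    rw [hB] at hg
    linarith

/-- The leading part of an exponential sum vanishes at the limits. -/
theorem lead_lim {ι : Type*} (S : Finset ι) (c : ι → ℝ) (a : ι → ℕ) (u : ι → ℝ → ℝ) (U : ι → ℝ)
    (hu : ∀ i ∈ S, Tendsto (u i) atTop (𝓝 (U i)))
    (h0 : ∀ᶠ y : ℝ in atTop, ∑ i ∈ S, c i * u i y * y ^ a i = 0) {J : ℕ} (hJ : ∀ i ∈ S, a i ≤ J) :
    ∑ i ∈ S with a i = J, c i * U i = 0 := by
  have h1 : Tendsto (fun y : ℝ => ∑ i ∈ S, c i * u i y * (y⁻¹) ^ (J - a i)) atTop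
      (𝓝 (∑ i ∈ S, c i * U i * 0 ^ (J - a i))) := by
    refine tendsto_finsetSum _ fun i hi => ?_
    exact ((hu i hi).const_mul (c i)).mul (tendsto_inv_atTop_zero.pow _)
  have h2 : ∑ i ∈ S, c i * U i * 0 ^ (J - a i) = ∑ i ∈ S with a i = J, c i * U i := by
    rw [sum_filter]
    refine sum_congr rfl fun i hi => ?_
    by_cases h : a i = J
    · rw [if_pos h, h, Nat.sub_self, pow_zero, mul_one]
    · rw [if_neg h, zero_pow, mul_zero]
      have := hJ i hi
      omega
  rw [h2] at h1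
  have h3 : ∀ᶠ y : ℝ in atTop, ∑ i ∈ S, c i * u i y * (y⁻¹) ^ (J - a i) = 0 := by
    filter_upwards [h0, eventually_gt_atTop 0] with y hy hpos
    have e : ∑ i ∈ S, c i * u i y * (y⁻¹) ^ (J - a i) = (y⁻¹) ^ J * ∑ i ∈ S, c i * u i y * y ^ a i := by
      rw [mul_sum]
      refine sum_congr rfl fun i hi => ?_
      have e1 : (y⁻¹) ^ J = (y⁻¹) ^ (J - a i) * (y⁻¹) ^ a i := by
        rw [← pow_add]
        congr 1
        have := hJ i hi
        omega
      have e2 : (y⁻¹) ^ a i * y ^ a i = 1 := by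
        rw [← mul_pow, inv_mul_cancel₀ hpos.ne', one_pow]
      rw [e1]
      linear_combination (-(c i * u i y * (y⁻¹) ^ (J - a i))) * e2
    rw [e, hy, mul_zero]
  exact tendsto_nhds_unique (h1.congr' (h3.mono fun y hy => hy)) tendsto_const_nhds

end Pool.Agent.Lib.MP_6ff0c5_lc.Gap
end

section

/-!
Gap theorem (MP_6ff0c5_lc): at a solution of the critical equations `x_i⁵ = -η (2 x_i + λ P_i(x))`, `deg P_i ≤ 3`,
every monomial is a combination of the monomials with exponents `≤ 4`, with coefficients in `ℤ[λ, η]` of bounded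
size.
-/

set_option autoImplicit false

open MvPolynomial Finset

namespace Pool.Agent.Lib.MP_6ff0c5_lc.Gap

variable {n : ℕ}

/-- evaluation of the coefficients -/
noncomputable def ev2 (lam eta : ℝ) : MvPolynomial (Fin 2) ℤ →ₐ[ℤ] ℝ := aeval ![lam, eta]

theorem ev2_X0 (lam eta : ℝ) : ev2 lam eta (X 0) = lam := by simp [ev2]
theorem ev2_X1 (lam eta : ℝ) : ev2 lam eta (X 1) = eta := by simp [ev2]
theorem ev2_C (lam eta : ℝ) (a : ℤ) : ev2 lam eta (C a) = a := by simp [ev2]

/-- the critical equations -/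
def Crit (P : Fin n → MvPolynomial (Fin n) ℤ) (lam eta : ℝ) (x : Fin n → ℝ) : Prop :=
  ∀ i, x i ^ 5 + eta * (2 * x i + lam * aeval x (P i)) = 0

/-- a monomial -/
def mon (x : Fin n → ℝ) (γ : Fin n →₀ ℕ) : ℝ := ∏ i, x i ^ γ i

/-- a monomial with exponents `≤ 4` -/
def mon5 (x : Fin n → ℝ) (β : Fin n → Fin 5) : ℝ := ∏ i, x i ^ (β i : ℕ)

theorem mon_add (x : Fin n → ℝ) (a b : Fin n →₀ ℕ) : mon x (a + b) = mon x a * mon x b := by
  unfold mon
  rw [← prod_mul_distrib]
  exact prod_congr rfl fun i _ => by rw [Finsupp.add_apply, pow_add]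

theorem mon_single (x : Fin n → ℝ) (i : Fin n) (k : ℕ) : mon x (Finsupp.single i k) = x i ^ k := by
  classical
  unfold mon
  rw [prod_eq_single i]
  · rw [Finsupp.single_eq_same]
  · intro j _ hj
    rw [Finsupp.single_eq_of_ne hj, pow_zero]
  · intro h
    exact absurd (mem_univ i) h

theorem aeval_eq_mon (x : Fin n → ℝ) (p : MvPolynomial (Fin n) ℤ) :
    aeval x p = ∑ m ∈ p.support, ((p.coeff m : ℤ) : ℝ) * mon x m := by
  conv_lhs => rw [p.as_sum]
  rw [map_sum]
  refine sum_congr rfl fun m _ => ?_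
  rw [aeval_monomial, Finsupp.prod_fintype _ _ (fun i => pow_zero _)]
  rfl

/-- Every monomial reduces. -/
theorem exists_red {P : Fin n → MvPolynomial (Fin n) ℤ} {B : ℕ} (hB : ∀ i, l1 (P i) ≤ B)
    (hd : ∀ i, (P i).totalDegree ≤ 3) (d : ℕ) : ∀ γ : Fin n →₀ ℕ, γ.degree = d →
    ∃ c : (Fin n → Fin 5) → MvPolynomial (Fin 2) ℤ, ∑ β, l1 (c β) ≤ (2 + B) ^ d ∧
      ∀ (lam eta : ℝ) (x : Fin n → ℝ), Crit P lam eta x →
        mon x γ = ∑ β, ev2 lam eta (c β) * mon5 x β := by
  classical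
  induction d using Nat.strong_induction_on with
  | _ d ih =>
  intro γ hγ
  by_cases h5 : ∃ i, 5 ≤ γ i
  · obtain ⟨i, hi⟩ := h5
    obtain ⟨γ', rfl⟩ : ∃ γ' : Fin n →₀ ℕ, γ = Finsupp.single i 5 + γ' := by
      refine ⟨γ - Finsupp.single i 5, ?_⟩
      rw [add_comm, tsub_add_cancel_of_le]
      rw [Finsupp.single_le_iff]
      exact hi
    have hdeg : d = 5 + γ'.degree := by
      rw [← hγ, map_add, Finsupp.degree_single]
    have h1 : (Finsupp.single i 1 + γ').degree < d := by
      rw [map_add, Finsupp.degree_single]; omega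
    obtain ⟨c1, hc1, e1⟩ := ih _ h1 (Finsupp.single i 1 + γ') rfl
    have hm : ∀ m ∈ (P i).support, (m + γ').degree ≤ d - 2 := by
      intro m hm
      have := (le_totalDegree hm).trans (hd i)
      have e : m.degree = m.sum fun _ e => e := rfl
      rw [map_add, e]; omega
    have h2 : ∀ m : Fin n →₀ ℕ, ∃ c : (Fin n → Fin 5) → MvPolynomial (Fin 2) ℤ, m ∈ (P i).support →
        (∑ β, l1 (c β) ≤ (2 + B) ^ (m + γ').degree ∧
        ∀ (lam eta : ℝ) (x : Fin n → ℝ), Crit P lam eta x →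
        mon x (m + γ') = ∑ β, ev2 lam eta (c β) * mon5 x β) := by
      intro m
      by_cases hmm : m ∈ (P i).support
      · have := hm m hmm
        obtain ⟨c, hc⟩ := ih (m + γ').degree (by omega) (m + γ') rfl
        exact ⟨c, fun _ => hc⟩
      · exact ⟨fun _ => 0, fun h => absurd h hmm⟩
    choose c2 hc2 using h2
    refine ⟨fun β => -(X 1 * (C 2 * c1 β + X 0 * ∑ m ∈ (P i).support, C ((P i).coeff m) * c2 m β)), ?_, ?_⟩
    · have b1 : ∀ β, l1 (-(X 1 * (C 2 * c1 β + X 0 * ∑ m ∈ (P i).support, C ((P i).coeff m) * c2 m β)) :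
          MvPolynomial (Fin 2) ℤ) ≤
          2 * l1 (c1 β) + ∑ m ∈ (P i).support, ((P i).coeff m).natAbs * l1 (c2 m β) := by
        intro β
        rw [l1_neg]
        refine (l1_mul_le _ _).trans ?_
        rw [l1_X, one_mul]
        refine (l1_add_le _ _).trans ?_
        refine Nat.add_le_add (l1_zsmul_le 2 _) ?_
        refine (l1_mul_le _ _).trans ?_
        rw [l1_X, one_mul]
        refine (l1_sum_le _ _).trans ?_
        exact sum_le_sum fun m _ => l1_zsmul_le _ _
      refine (sum_le_sum fun β _ => b1 β).trans ?_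
      rw [sum_add_distrib, ← mul_sum, sum_comm]
      have b2 : ∑ m ∈ (P i).support, ∑ β, ((P i).coeff m).natAbs * l1 (c2 m β) ≤ B * (2 + B) ^ (d - 2) := by
        calc ∑ m ∈ (P i).support, ∑ β, ((P i).coeff m).natAbs * l1 (c2 m β)
            ≤ ∑ m ∈ (P i).support, ((P i).coeff m).natAbs * (2 + B) ^ (d - 2) := by
              refine sum_le_sum fun m hmm => ?_
              rw [← mul_sum]
              refine Nat.mul_le_mul_left _ (((hc2 m hmm).1).trans ?_)
              exact Nat.pow_le_pow_right (by omega) (hm m hmm)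
          _ = l1 (P i) * (2 + B) ^ (d - 2) := by rw [← sum_mul]; rfl
          _ ≤ B * (2 + B) ^ (d - 2) := Nat.mul_le_mul_right _ (hB i)
      have b3 : ∑ β, l1 (c1 β) ≤ (2 + B) ^ (d - 2) := by
        refine hc1.trans (Nat.pow_le_pow_right (by omega) ?_)
        rw [map_add, Finsupp.degree_single]; omega
      calc 2 * ∑ β, l1 (c1 β) + ∑ m ∈ (P i).support, ∑ β, ((P i).coeff m).natAbs * l1 (c2 m β)
          ≤ 2 * (2 + B) ^ (d - 2) + B * (2 + B) ^ (d - 2) := Nat.add_le_add (Nat.mul_le_mul_left _ b3) b2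
        _ = (2 + B) ^ (d - 2 + 1) := by rw [pow_succ]; ring
        _ ≤ (2 + B) ^ d := Nat.pow_le_pow_right (by omega) (by omega)
    · intro lam eta x hx
      have e2 : mon x (Finsupp.single i 5 + γ') =
          -(eta * (2 * mon x (Finsupp.single i 1 + γ') + lam * ∑ m ∈ (P i).support,
            (((P i).coeff m : ℤ) : ℝ) * mon x (m + γ'))) := by
        have hxi := hx i
        rw [aeval_eq_mon] at hxi
        have e3 : ∑ m ∈ (P i).support, (((P i).coeff m : ℤ) : ℝ) * mon x (m + γ') =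
            (∑ m ∈ (P i).support, (((P i).coeff m : ℤ) : ℝ) * mon x m) * mon x γ' := by
          rw [sum_mul]
          exact sum_congr rfl fun m _ => by rw [mon_add]; ring
        rw [e3, mon_add, mon_add, mon_single, mon_single]
        linear_combination mon x γ' * hxi
      rw [e2, e1 lam eta x hx]
      have e4 : ∑ m ∈ (P i).support, (((P i).coeff m : ℤ) : ℝ) * mon x (m + γ') =
          ∑ β, (∑ m ∈ (P i).support, (((P i).coeff m : ℤ) : ℝ) * ev2 lam eta (c2 m β)) * mon5 x β := by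
        have : ∀ m ∈ (P i).support, (((P i).coeff m : ℤ) : ℝ) * mon x (m + γ') =
            ∑ β, (((P i).coeff m : ℤ) : ℝ) * ev2 lam eta (c2 m β) * mon5 x β := by
          intro m hmm
          rw [(hc2 m hmm).2 lam eta x hx, mul_sum]
          exact sum_congr rfl fun β _ => by ring
        rw [sum_congr rfl this, sum_comm]
        exact sum_congr rfl fun β _ => by rw [sum_mul]
      rw [e4, mul_sum, mul_sum, ← sum_add_distrib, mul_sum, ← sum_neg_distrib]
      refine sum_congr rfl fun β _ => ?_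
      simp only [map_neg, map_mul, map_add, map_sum, ev2_X0, ev2_X1, ev2_C]
      push_cast
      ring
  · push Not at h5
    refine ⟨fun β => if β = fun i => (⟨γ i, h5 i⟩ : Fin 5) then 1 else 0, ?_, ?_⟩
    · rw [sum_eq_single (fun i => (⟨γ i, h5 i⟩ : Fin 5))]
      · dsimp only
        rw [if_pos rfl, l1_one]
        exact Nat.one_le_pow _ _ (by omega)
      · intro β _ hβ
        dsimp only
        rw [if_neg hβ, l1_zero]
      · intro h
        exact absurd (mem_univ _) h
    · intro lam eta x _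
      rw [sum_eq_single (fun i => (⟨γ i, h5 i⟩ : Fin 5))]
      · dsimp only
        rw [if_pos rfl, map_one, one_mul]; rfl
      · intro β _ hβ
        dsimp only
        rw [if_neg hβ, map_zero, zero_mul]
      · intro h
        exact absurd (mem_univ _) h

/-- Reduction of a polynomial times a monomial. -/
theorem exists_red_mul {P : Fin n → MvPolynomial (Fin n) ℤ} {B : ℕ} (hB : ∀ i, l1 (P i) ≤ B)
    (hd : ∀ i, (P i).totalDegree ≤ 3) (p : MvPolynomial (Fin n) ℤ) {e : ℕ} (hp : p.totalDegree ≤ e)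
    (α : Fin n → Fin 5) :
    ∃ c : (Fin n → Fin 5) → MvPolynomial (Fin 2) ℤ, ∑ β, l1 (c β) ≤ l1 p * (2 + B) ^ (e + 4 * n) ∧
      ∀ (lam eta : ℝ) (x : Fin n → ℝ), Crit P lam eta x →
        aeval x p * mon5 x α = ∑ β, ev2 lam eta (c β) * mon5 x β := by
  classical
  set a : Fin n →₀ ℕ := Finsupp.equivFunOnFinite.symm fun i => (α i : ℕ) with ha
  have ham : ∀ x : Fin n → ℝ, mon5 x α = mon x a := fun x => rfl
  have had : a.degree ≤ 4 * n := by
    rw [Finsupp.degree_eq_sum]
    calc ∑ i, a i ≤ ∑ i : Fin n, 4 := sum_le_sum fun i _ => by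
          have : a i = (α i : ℕ) := rfl
          rw [this]
          have := (α i).2
          omega
      _ = 4 * n := by simp [mul_comm]
  have h2 : ∀ m : Fin n →₀ ℕ, ∃ c : (Fin n → Fin 5) → MvPolynomial (Fin 2) ℤ,
        (∑ β, l1 (c β) ≤ (2 + B) ^ (m + a).degree ∧
        ∀ (lam eta : ℝ) (x : Fin n → ℝ), Crit P lam eta x →
        mon x (m + a) = ∑ β, ev2 lam eta (c β) * mon5 x β) :=
    fun m => exists_red hB hd _ (m + a) rfl
  choose c2 hc2 hc3 using h2
  refine ⟨fun β => ∑ m ∈ p.support, C (p.coeff m) * c2 m β, ?_, ?_⟩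
  · calc ∑ β, l1 (∑ m ∈ p.support, C (p.coeff m) * c2 m β)
        ≤ ∑ β, ∑ m ∈ p.support, (p.coeff m).natAbs * l1 (c2 m β) := by
          refine sum_le_sum fun β _ => (l1_sum_le _ _).trans ?_
          exact sum_le_sum fun m _ => l1_zsmul_le _ _
      _ = ∑ m ∈ p.support, (p.coeff m).natAbs * ∑ β, l1 (c2 m β) := by
          rw [sum_comm]
          exact sum_congr rfl fun m _ => by rw [mul_sum]
      _ ≤ ∑ m ∈ p.support, (p.coeff m).natAbs * (2 + B) ^ (e + 4 * n) := by
          refine sum_le_sum fun m hm => Nat.mul_le_mul_left _ ((hc2 m).trans ?_)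
          refine Nat.pow_le_pow_right (by omega) ?_
          have := (le_totalDegree hm).trans hp
          have e : m.degree = m.sum fun _ e => e := rfl
          rw [map_add, e]; omega
      _ = l1 p * (2 + B) ^ (e + 4 * n) := by rw [← sum_mul]; rfl
  · intro lam eta x hx
    rw [aeval_eq_mon, ham, sum_mul]
    have : ∀ m ∈ p.support, ((p.coeff m : ℤ) : ℝ) * mon x m * mon x a =
        ∑ β, ((p.coeff m : ℤ) : ℝ) * ev2 lam eta (c2 m β) * mon5 x β := by
      intro m _
      rw [mul_assoc, ← mon_add, hc3 m lam eta x hx, mul_sum]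
      exact sum_congr rfl fun β _ => by ring
    rw [sum_congr rfl this, sum_comm]
    refine sum_congr rfl fun β _ => ?_
    rw [← sum_mul, map_sum]
    congr 1
    exact sum_congr rfl fun m _ => by rw [map_mul, ev2_C]

end Pool.Agent.Lib.MP_6ff0c5_lc.Gap
end

section

/-!
Gap theorem (MP_6ff0c5_lc): the integer polynomial `Q(w, λ, η)` which vanishes at `(|x|² + λ f(x), λ, η)` for every
solution `x` of the critical equations.
-/

set_option autoImplicit false

open MvPolynomial Finset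

namespace Pool.Agent.Lib.MP_6ff0c5_lc.Gap

variable {n : ℕ}

/-- `∑ x_i²` -/
noncomputable def sq (n : ℕ) : MvPolynomial (Fin n) ℤ := ∑ i, X i ^ 2

theorem aeval_sq (x : Fin n → ℝ) : aeval x (sq n) = ∑ i, x i ^ 2 := by
  unfold sq
  rw [map_sum]
  exact sum_congr rfl fun i _ => by rw [map_pow, aeval_X]

theorem l1_sq_le : l1 (sq n) ≤ n := by
  unfold sq
  refine (l1_sum_le _ _).trans ?_
  calc ∑ i : Fin n, l1 (X i ^ 2 : MvPolynomial (Fin n) ℤ) ≤ ∑ i : Fin n, 1 := by
        refine sum_le_sum fun i _ => ?_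
        rw [pow_two]
        exact (l1_mul_le _ _).trans (by rw [l1_X])
    _ = n := by simp

theorem totalDegree_sq_le : (sq n).totalDegree ≤ 4 := by
  unfold sq
  refine (totalDegree_finsetSum _ _).trans (Finset.sup_le fun i _ => ?_)
  refine (totalDegree_pow _ _).trans ?_
  rw [totalDegree_X]
  norm_num

/-- the bound of the rows -/
def rowB (n A B : ℕ) : ℕ := 1 + (n + A) * (2 + B) ^ (4 + 4 * n)

/-- the bound of the coefficients of `Q` -/
def qB (n A B : ℕ) : ℕ := rowB n A B ^ (5 ^ n)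

/-- `(λ, η) ↦` variables `1, 2` -/
noncomputable def ren : MvPolynomial (Fin 2) ℤ →ₐ[ℤ] MvPolynomial (Fin 3) ℤ := rename ![1, 2]

theorem degreeOf_ren (p : MvPolynomial (Fin 2) ℤ) : degreeOf 0 (ren p) = 0 := by
  classical
  by_contra h
  have h1 : (0 : Fin 3) ∈ (ren p).vars := by
    rw [mem_vars_iff_degreeOf_ne_zero]
    exact h
  have h2 := vars_rename ![1, 2] p h1
  rw [mem_image] at h2
  obtain ⟨i, -, hi⟩ := h2
  fin_cases i <;> simp at hi

theorem exists_Q {f : MvPolynomial (Fin n) ℤ} {P : Fin n → MvPolynomial (Fin n) ℤ} {A B : ℕ}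
    (hf : l1 f ≤ A) (hfd : f.totalDegree ≤ 4) (hB : ∀ i, l1 (P i) ≤ B) (hd : ∀ i, (P i).totalDegree ≤ 3) :
    ∃ Q : MvPolynomial (Fin 3) ℤ, Q ≠ 0 ∧ l1 Q ≤ qB n A B ∧ degreeOf 0 Q ≤ 5 ^ n ∧
      ∀ (lam eta : ℝ) (x : Fin n → ℝ), Crit P lam eta x →
        aeval ![(∑ i, x i ^ 2) + lam * aeval x f, lam, eta] Q = 0 := by
  classical
  choose c1 h1 e1 using fun α => exists_red_mul hB hd (sq n) totalDegree_sq_le α
  choose c2 h2 e2 using fun α => exists_red_mul hB hd f hfd α
  set M : Matrix (Fin n → Fin 5) (Fin n → Fin 5) (MvPolynomial (Fin 2) ℤ) :=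
    Matrix.of fun α β => c1 α β + X 0 * c2 α β with hM
  set Q0 : Matrix (Fin n → Fin 5) (Fin n → Fin 5) (MvPolynomial (Fin 3) ℤ) :=
    Matrix.diagonal (fun _ => X 0) - M.map ren with hQ0
  refine ⟨Q0.det, ?_, ?_, ?_, ?_⟩
  · -- nonzero
    intro h0
    set ψ : MvPolynomial (Fin 3) ℤ →ₐ[ℤ] Polynomial ℤ := aeval ![Polynomial.X, 0, 0] with hψ
    set M0 : Matrix (Fin n → Fin 5) (Fin n → Fin 5) ℤ := M.map (aeval ![(0 : ℤ), 0]) with hM0
    have hren : ∀ p : MvPolynomial (Fin 2) ℤ, ψ (ren p) = Polynomial.C (aeval ![(0 : ℤ), 0] p) := by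
      intro p
      have : (ψ.comp ren) = ((Polynomial.CAlgHom (R := ℤ) (A := ℤ)).comp (aeval ![(0 : ℤ), 0])) := by
        apply MvPolynomial.algHom_ext
        intro i
        fin_cases i <;> simp [ψ, ren]
      exact DFunLike.congr_fun this p
    have h3 : ψ Q0.det = M0.charpoly := by
      rw [AlgHom.map_det, Matrix.charpoly]
      congr 1
      ext1 i j
      rw [Matrix.charmatrix_apply]
      simp only [AlgHom.mapMatrix_apply, Matrix.map_apply, hQ0, Matrix.sub_apply, map_sub, hM0]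
      rw [hren]
      congr 1
      by_cases hij : i = j
      · subst hij
        simp [ψ]
      · simp [Matrix.diagonal_apply_ne _ hij]
    rw [h0, map_zero] at h3
    exact (Matrix.charpoly_monic M0).ne_zero h3.symm
  · -- size
    have hrow : ∀ α, ∑ β, l1 (Q0 α β) ≤ rowB n A B := by
      intro α
      have b1 : ∀ β, l1 (Q0 α β) ≤ (if β = α then 1 else 0) + (l1 (c1 α β) + l1 (c2 α β)) := by
        intro β
        rw [hQ0, Matrix.sub_apply, sub_eq_add_neg]
        refine (l1_add_le _ _).trans (Nat.add_le_add ?_ ?_)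
        · by_cases hab : α = β
          · subst hab
            rw [Matrix.diagonal_apply_eq, if_pos rfl, l1_X]
          · rw [Matrix.diagonal_apply_ne _ hab, l1_zero]
            exact Nat.zero_le _
        · rw [l1_neg, Matrix.map_apply]
          refine (l1_rename_le _ _).trans ?_
          rw [hM, Matrix.of_apply]
          refine (l1_add_le _ _).trans (Nat.add_le_add le_rfl ?_)
          refine (l1_mul_le _ _).trans ?_
          rw [l1_X, one_mul]
      calc ∑ β, l1 (Q0 α β) ≤ ∑ β, ((if β = α then 1 else 0) + (l1 (c1 α β) + l1 (c2 α β))) :=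
            sum_le_sum fun β _ => b1 β
        _ = 1 + (∑ β, l1 (c1 α β) + ∑ β, l1 (c2 α β)) := by
            rw [sum_add_distrib, sum_add_distrib]
            simp
        _ ≤ 1 + (n * (2 + B) ^ (4 + 4 * n) + A * (2 + B) ^ (4 + 4 * n)) := by
            refine Nat.add_le_add le_rfl (Nat.add_le_add ?_ ?_)
            · exact (h1 α).trans (Nat.mul_le_mul_right _ l1_sq_le)
            · exact (h2 α).trans (Nat.mul_le_mul_right _ hf)
        _ = rowB n A B := by unfold rowB; ring
    refine (l1_det_le Q0 hrow).trans ?_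
    unfold qB
    simp
  · -- degree
    have hent : ∀ α β, degreeOf 0 (Q0 α β) ≤ 1 := by
      intro α β
      rw [hQ0, Matrix.sub_apply, sub_eq_add_neg]
      refine (degreeOf_add_le _ _ _).trans (max_le ?_ ?_)
      · by_cases hab : α = β
        · subst hab
          rw [Matrix.diagonal_apply_eq]
          exact (degreeOf_X_self 0).le
        · rw [Matrix.diagonal_apply_ne _ hab, degreeOf_zero]
          exact Nat.zero_le _
      · rw [Matrix.map_apply, ← map_neg, degreeOf_ren]
        exact Nat.zero_le _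
    rw [Matrix.det_apply]
    refine (degreeOf_sum_le _ _ _).trans (Finset.sup_le fun s _ => ?_)
    have hp : degreeOf 0 (∏ i, Q0 (s i) i) ≤ 5 ^ n := by
      refine (degreeOf_prod_le _ _ _).trans ?_
      calc ∑ i, degreeOf 0 (Q0 (s i) i) ≤ ∑ i : Fin n → Fin 5, 1 := sum_le_sum fun i _ => hent _ _
        _ = 5 ^ n := by simp
    rcases Int.units_eq_one_or (Equiv.Perm.sign s) with h | h
    · rw [h, one_smul]
      exact hp
    · rw [h, Units.neg_smul, one_smul]
      have : -(∏ i, Q0 (s i) i) = C (-1) * ∏ i, Q0 (s i) i := by simp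
      rw [this]
      exact (degreeOf_C_mul_le _ _ _).trans hp
  · intro lam eta x hx
    set w : ℝ := (∑ i, x i ^ 2) + lam * aeval x f with hw
    set φ : MvPolynomial (Fin 3) ℤ →ₐ[ℤ] ℝ := aeval ![w, lam, eta] with hφ
    have hren : ∀ p : MvPolynomial (Fin 2) ℤ, φ (ren p) = ev2 lam eta p := by
      intro p
      have : φ.comp ren = ev2 lam eta := by
        apply MvPolynomial.algHom_ext
        intro i
        fin_cases i <;> simp [φ, ren, ev2]
      exact DFunLike.congr_fun this p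
    rw [AlgHom.map_det]
    rw [← Matrix.exists_mulVec_eq_zero_iff]
    refine ⟨mon5 x, ?_, ?_⟩
    · intro h
      have := congrFun h (fun _ => 0)
      simp [mon5] at this
    · ext1 α
      have e3 : ∀ β, φ (Q0 α β) * mon5 x β = (if β = α then w * mon5 x α else 0) -
          (ev2 lam eta (c1 α β) * mon5 x β + lam * (ev2 lam eta (c2 α β) * mon5 x β)) := by
        intro β
        rw [hQ0, Matrix.sub_apply, map_sub, Matrix.map_apply, hren, hM, Matrix.of_apply, map_add, map_mul, ev2_X0]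
        by_cases hab : α = β
        · subst hab
          rw [Matrix.diagonal_apply_eq, if_pos rfl]
          have : φ (X 0) = w := by simp [φ]
          rw [this]
          ring
        · rw [Matrix.diagonal_apply_ne _ hab, if_neg (Ne.symm hab), map_zero]
          ring
      show ∑ β, φ (Q0 α β) * mon5 x β = 0
      rw [sum_congr rfl fun β _ => e3 β, sum_sub_distrib, sum_add_distrib, ← mul_sum, ← e1 α lam eta x hx,
        ← e2 α lam eta x hx, aeval_sq, sum_ite_eq' univ α, if_pos (mem_univ _), hw]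
      ring

end Pool.Agent.Lib.MP_6ff0c5_lc.Gap
end

section

/-!
Gap theorem (MP_6ff0c5_lc): consequences of an equation `Q(w(λ, η), λ, η) = 0` for the limits.
-/

set_option autoImplicit false

open Finset Filter Topology

namespace Pool.Agent.Lib.MP_6ff0c5_lc.Gap

theorem aeval3 (Q : MvPolynomial (Fin 3) ℤ) (w l e : ℝ) :
    MvPolynomial.aeval ![w, l, e] Q =
      ∑ m ∈ Q.support, ((Q.coeff m : ℤ) : ℝ) * (w ^ m 0 * l ^ m 1) * e ^ m 2 := by
  conv_lhs => rw [Q.as_sum]
  rw [map_sum]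
  refine sum_congr rfl fun m _ => ?_
  rw [MvPolynomial.aeval_monomial, Finsupp.prod_fintype _ _ (fun i => pow_zero _), Fin.prod_univ_three]
  simp
  ring

/-- The limit statement in the last variable. -/
theorem lim_eta {Q : MvPolynomial (Fin 3) ℤ} {J : ℕ} (hJ : ∀ m ∈ Q.support, m 2 ≤ J) {l g : ℝ} {w : ℝ → ℝ}
    (hw : Tendsto w atTop (𝓝 g)) (h0 : ∀ᶠ e in atTop, MvPolynomial.aeval ![w e, l, e] Q = 0) :
    ∑ m ∈ Q.support with m 2 = J, ((Q.coeff m : ℤ) : ℝ) * (g ^ m 0 * l ^ m 1) = 0 := by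
  refine lead_lim Q.support (fun m => ((Q.coeff m : ℤ) : ℝ)) (fun m => m 2) (fun m e => w e ^ m 0 * l ^ m 1)
    (fun m => g ^ m 0 * l ^ m 1) (fun m _ => (hw.pow _).mul_const _) ?_ hJ
  filter_upwards [h0] with e he
  rw [← aeval3]
  exact he

/-- The algebraic part of the gap theorem. -/
theorem alg_part {Q : MvPolynomial (Fin 3) ℤ} (hQ : Q ≠ 0) {D : ℕ} (hD : MvPolynomial.degreeOf 0 Q ≤ D)
    {g : ℝ → ℝ} {w : ℝ → ℝ → ℝ} (hw : ∀ l, 0 < l → Tendsto (w l) atTop (𝓝 (g l)))
    (h0 : ∀ l, 0 < l → ∀ᶠ e in atTop, MvPolynomial.aeval ![w l e, l, e] Q = 0) :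
    (∀ G, Tendsto g atTop (𝓝 G) → |G| ≤ (l1 Q : ℝ)) ∧
      (∀ V0 : ℕ, 1 ≤ V0 → ∃ v : ℕ, V0 ≤ v ∧ v ≤ V0 + D ∧ ∀ l, 0 < l → g l = v → l ≤ (l1 Q : ℝ) * (v : ℝ) ^ D) := by
  classical
  have hne : Q.support.Nonempty := by
    rw [Finset.nonempty_iff_ne_empty]
    intro h
    exact hQ (MvPolynomial.support_eq_empty.1 h)
  obtain ⟨m₁, hm₁, hmax1⟩ := Q.support.exists_max_image (fun m => m 2) hne
  set J := m₁ 2 with hJdef
  set SJ := Q.support.filter (fun m => m 2 = J) with hSJ
  have hneJ : SJ.Nonempty := ⟨m₁, by rw [hSJ, mem_filter]; exact ⟨hm₁, rfl⟩⟩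
  obtain ⟨m₂, hm₂, hmax2⟩ := SJ.exists_max_image (fun m => m 1) hneJ
  set K := m₂ 1 with hKdef
  set SK := SJ.filter (fun m => m 1 = K) with hSK
  have hm₂K : m₂ ∈ SK := by rw [hSK, mem_filter]; exact ⟨hm₂, rfl⟩
  have hdeg : ∀ m ∈ Q.support, m 0 ≤ D := fun m hm =>
    (MvPolynomial.monomial_le_degreeOf 0 hm).trans hD
  have hSJs : SJ ⊆ Q.support := filter_subset _ _
  have hSKs : SK ⊆ Q.support := (filter_subset _ _).trans hSJs
  -- the polynomial in `w`
  set p : Polynomial ℤ := ∑ m ∈ SK, Polynomial.monomial (m 0) (Q.coeff m) with hp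
  have hpne : p ≠ 0 := by
    intro h
    have h1 : p.coeff (m₂ 0) = Q.coeff m₂ := by
      rw [hp, Polynomial.finsetSum_coeff, sum_eq_single m₂]
      · rw [Polynomial.coeff_monomial_same]
      · intro m hm hmm
        rw [Polynomial.coeff_monomial, if_neg]
        intro h0'
        apply hmm
        have e2 : m 2 = m₂ 2 := by
          have a1 := (mem_filter.1 (mem_filter.1 hm).1).2
          have a2 := (mem_filter.1 hm₂).2
          rw [a1, a2]
        have e1 : m 1 = m₂ 1 := (mem_filter.1 hm).2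
        ext i
        fin_cases i
        · exact h0'
        · exact e1
        · exact e2
      · intro h'; exact absurd hm₂K h'
    rw [h, Polynomial.coeff_zero] at h1
    exact (MvPolynomial.mem_support_iff.1 (hSJs hm₂)) h1.symm
  have hpl1 : pl1 p ≤ l1 Q := by
    refine (pl1_sum_le _ _).trans ?_
    refine (sum_le_sum fun m _ => pl1_monomial_le _ _).trans ?_
    exact sum_le_sum_of_subset hSKs
  have hpdeg : p.natDegree ≤ D := by
    refine Polynomial.natDegree_sum_le_of_forall_le _ _ fun m hm => ?_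
    exact (Polynomial.natDegree_monomial_le _).trans (hdeg m (hSKs hm))
  have hpev : ∀ x : ℝ, Polynomial.aeval x p = ∑ m ∈ SK, ((Q.coeff m : ℤ) : ℝ) * x ^ m 0 := by
    intro x
    rw [hp, map_sum]
    refine sum_congr rfl fun m _ => ?_
    rw [Polynomial.aeval_monomial]
    simp
  have hfst : ∀ l, 0 < l → ∑ m ∈ SJ, ((Q.coeff m : ℤ) : ℝ) * (g l ^ m 0 * l ^ m 1) = 0 := fun l hl =>
    lim_eta (fun m hm => hmax1 m hm) (hw l hl) (h0 l hl)
  constructor
  · intro G hG
    have h2 : ∑ m ∈ SJ with m 1 = K, ((Q.coeff m : ℤ) : ℝ) * G ^ m 0 = 0 := by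
      refine lead_lim SJ (fun m => ((Q.coeff m : ℤ) : ℝ)) (fun m => m 1) (fun m l => g l ^ m 0)
        (fun m => G ^ m 0) (fun m _ => hG.pow _) ?_ (fun m hm => hmax2 m hm)
      filter_upwards [eventually_gt_atTop 0] with l hl
      rw [← hfst l hl]
      exact sum_congr rfl fun m _ => by ring
    have h3 : Polynomial.aeval G p = 0 := by rw [hpev, ← h2]
    exact (abs_root_le hpne h3).trans (by exact_mod_cast hpl1)
  · intro V0 hV0
    -- an integer which is not a root
    obtain ⟨v, hv1, hv2, hv3⟩ : ∃ v : ℕ, V0 ≤ v ∧ v ≤ V0 + D ∧ p.eval (v : ℤ) ≠ 0 := by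
      by_contra hcon
      push Not at hcon
      have hsub : (Finset.Icc V0 (V0 + D)).image (fun v : ℕ => (v : ℤ)) ⊆ p.roots.toFinset := by
        intro z hz
        obtain ⟨v, hv, rfl⟩ := mem_image.1 hz
        rw [mem_Icc] at hv
        rw [Multiset.mem_toFinset, Polynomial.mem_roots hpne]
        exact hcon v hv.1 hv.2
      have hc := card_le_card hsub
      rw [card_image_of_injective _ (fun a b h => by exact_mod_cast h), Nat.card_Icc] at hc
      have h4 := (Multiset.toFinset_card_le p.roots).trans (Polynomial.card_roots' p)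
      omega
    refine ⟨v, hv1, hv2, fun l hl hgl => ?_⟩
    have hv0 : 1 ≤ v := hV0.trans hv1
    set r : Polynomial ℤ := ∑ m ∈ SJ, Polynomial.monomial (m 1) (Q.coeff m * (v : ℤ) ^ m 0) with hr
    have hrne : r ≠ 0 := by
      intro h
      apply hv3
      have h1 : r.coeff K = p.eval (v : ℤ) := by
        rw [hr, Polynomial.finsetSum_coeff, hp, Polynomial.eval_finsetSum, hSK, sum_filter (s := SJ) (p := fun m => m 1 = K)]
        refine sum_congr rfl fun m _ => ?_
        rw [Polynomial.coeff_monomial, Polynomial.eval_monomial]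
      rw [← h1, h, Polynomial.coeff_zero]
    have hrev : Polynomial.aeval l r = 0 := by
      rw [← hfst l hl, hr, map_sum]
      refine sum_congr rfl fun m _ => ?_
      rw [Polynomial.aeval_monomial, hgl]
      simp
      ring
    have h5 := abs_root_le hrne hrev
    rw [abs_of_pos hl] at h5
    refine h5.trans ?_
    have h6 : pl1 r ≤ l1 Q * v ^ D := by
      refine (pl1_sum_le _ _).trans ?_
      calc ∑ m ∈ SJ, pl1 (Polynomial.monomial (m 1) (Q.coeff m * (v : ℤ) ^ m 0))
          ≤ ∑ m ∈ SJ, (Q.coeff m).natAbs * v ^ D := by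
            refine sum_le_sum fun m hm => (pl1_monomial_le _ _).trans ?_
            rw [Int.natAbs_mul, Int.natAbs_pow, Int.natAbs_natCast]
            exact Nat.mul_le_mul_left _ (Nat.pow_le_pow_right hv0 (hdeg m (hSJs hm)))
        _ ≤ ∑ m ∈ Q.support, (Q.coeff m).natAbs * v ^ D := sum_le_sum_of_subset hSJs
        _ = l1 Q * v ^ D := by rw [l1, sum_mul]
    exact_mod_cast h6

end Pool.Agent.Lib.MP_6ff0c5_lc.Gap
end

section

/-!
Gap theorem (MP_6ff0c5_lc): partial derivatives and minimisers.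
-/

set_option autoImplicit false

open Finset Filter Topology MvPolynomial

namespace Pool.Agent.Lib.MP_6ff0c5_lc.Gap

variable {n : ℕ}

theorem pderiv_eq_sum (f : MvPolynomial (Fin n) ℤ) (i : Fin n) :
    pderiv i f = ∑ m ∈ f.support, monomial (m - Finsupp.single i 1) (f.coeff m * (m i : ℤ)) := by
  conv_lhs => rw [f.as_sum]
  rw [map_sum]
  exact sum_congr rfl fun m _ => pderiv_monomial

theorem l1_pderiv_le (f : MvPolynomial (Fin n) ℤ) (i : Fin n) {D : ℕ} (hD : f.totalDegree ≤ D) :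
    l1 (pderiv i f) ≤ D * l1 f := by
  rw [pderiv_eq_sum]
  refine (l1_sum_le _ _).trans ?_
  rw [l1, mul_sum]
  refine sum_le_sum fun m hm => ?_
  rw [l1_monomial, Int.natAbs_mul, Int.natAbs_natCast, mul_comm]
  refine Nat.mul_le_mul_right _ ?_
  have h1 : m i ≤ m.degree := Finsupp.le_degree i m
  have h2 : m.degree ≤ f.totalDegree := le_totalDegree hm
  omega

theorem totalDegree_pderiv_le (f : MvPolynomial (Fin n) ℤ) (i : Fin n) {D : ℕ} (hD : f.totalDegree ≤ D + 1) :
    (pderiv i f).totalDegree ≤ D := by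
  rw [pderiv_eq_sum]
  refine (totalDegree_finsetSum _ _).trans (Finset.sup_le fun m hm => ?_)
  by_cases h : m i = 0
  · rw [h]
    simp
  · refine (totalDegree_monomial_le _ _).trans ?_
    have h2 : m.degree ≤ f.totalDegree := le_totalDegree hm
    have h3 : (m - Finsupp.single i 1) + Finsupp.single i 1 = m := by
      apply tsub_add_cancel_of_le
      rw [Finsupp.single_le_iff]
      omega
    have h4 : (m - Finsupp.single i 1).degree + 1 = m.degree := by
      conv_rhs => rw [← h3, map_add, Finsupp.degree_single]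
    have h5 : (m - Finsupp.single i 1).degree ≤ D := by omega
    exact h5

theorem hasDerivAt_aeval (f : MvPolynomial (Fin n) ℤ) (x : Fin n → ℝ) (i : Fin n) :
    HasDerivAt (fun t => aeval (Function.update x i t) f) (aeval x (pderiv i f)) (x i) := by
  classical
  induction f using MvPolynomial.induction_on with
  | C a => 
    simp only [aeval_C, pderiv_C, map_zero]
    exact hasDerivAt_const _ _
  | add p q hp hq =>
    simp only [map_add]
    exact hp.add hq
  | mul_X p j hp =>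
    have h2 : HasDerivAt (fun t => Function.update x i t j) (if j = i then 1 else 0) (x i) := by
      by_cases h : j = i
      · subst h
        rw [if_pos rfl]
        simpa using hasDerivAt_id' (x j)
      · rw [if_neg h]
        have : (fun t => Function.update x i t j) = fun _ => x j := by
          ext t
          rw [Function.update_of_ne h]
        rw [this]
        exact hasDerivAt_const _ _
    have h3 := hp.mul h2
    have h4 : aeval x (pderiv i (p * X j)) = aeval x (pderiv i p) * Function.update x i (x i) j +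
        aeval (Function.update x i (x i)) p * (if j = i then 1 else 0) := by
      rw [Function.update_eq_self, Derivation.leibniz, pderiv_X]
      by_cases h : j = i
      · subst h
        simp
        ring
      · rw [if_neg h]
        simp [Ne.symm h]
        ring
    rw [h4]
    have h5 : (fun t => aeval (Function.update x i t) (p * X j)) =
        (fun t => aeval (Function.update x i t) p) * fun t => Function.update x i t j := by
      ext t
      simp
    rw [h5]
    exact h3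

theorem continuous_aeval' (f : MvPolynomial (Fin n) ℤ) : Continuous fun x : Fin n → ℝ => aeval x f := by
  induction f using MvPolynomial.induction_on with
  | C a =>
    simp only [aeval_C]
    exact continuous_const
  | add p q hp hq =>
    simp only [map_add]
    exact hp.add hq
  | mul_X p j hp =>
    simp only [map_mul, aeval_X]
    exact hp.mul (continuous_apply j)

/-- the square norm dominates the sup norm -/
theorem norm_sq_le_sum (x : Fin n → ℝ) : ‖x‖ ^ 2 ≤ ∑ i, x i ^ 2 := by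
  have h0 : 0 ≤ ∑ i, x i ^ 2 := sum_nonneg fun i _ => sq_nonneg _
  have h1 : ‖x‖ ≤ Real.sqrt (∑ i, x i ^ 2) := by
    rw [pi_norm_le_iff_of_nonneg (Real.sqrt_nonneg _)]
    intro i
    rw [Real.norm_eq_abs]
    apply Real.abs_le_sqrt
    exact single_le_sum (f := fun i => x i ^ 2) (fun i _ => sq_nonneg _) (mem_univ i)
  calc ‖x‖ ^ 2 ≤ Real.sqrt (∑ i, x i ^ 2) ^ 2 := by gcongr
    _ = _ := Real.sq_sqrt h0

/-- A continuous function which dominates a multiple of the square norm attains its minimum. -/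
theorem exists_min {h : (Fin n → ℝ) → ℝ} (hc : Continuous h) {c : ℝ} (hpos : 0 < c)
    (hle : ∀ x, c * ∑ i, x i ^ 2 ≤ h x) : ∃ x, ∀ y, h x ≤ h y := by
  refine hc.exists_forall_le ?_
  have h1 : Tendsto (fun x : Fin n → ℝ => c * ‖x‖ ^ 2) (cocompact _) atTop :=
    ((tendsto_pow_atTop two_ne_zero).comp (tendsto_norm_cocompact_atTop (E := Fin n → ℝ))).const_mul_atTop hpos
  exact tendsto_atTop_mono (fun x => (mul_le_mul_of_nonneg_left (norm_sq_le_sum x) hpos.le).trans (hle x)) h1

/-- The perturbed minimiser is critical. -/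
theorem crit_of_min {f : MvPolynomial (Fin n) ℤ} {lam eta : ℝ} {x : Fin n → ℝ}
    (h : ∀ y : Fin n → ℝ, (∑ i, x i ^ 6) / 6 + eta * ((∑ i, x i ^ 2) + lam * aeval x f) ≤
      (∑ i, y i ^ 6) / 6 + eta * ((∑ i, y i ^ 2) + lam * aeval y f)) :
    Crit (fun i => pderiv i f) lam eta x := by
  classical
  intro i
  have hupd : HasDerivAt (fun t : ℝ => Function.update x i t i) 1 (x i) := by
    simpa using hasDerivAt_id' (x i)
  have hsum : ∀ k : ℕ, HasDerivAt (fun t : ℝ => ∑ j, Function.update x i t j ^ k) (k * x i ^ (k - 1)) (x i) := by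
    intro k
    have e : (fun t : ℝ => ∑ j, Function.update x i t j ^ k) = fun t : ℝ => t ^ k + ∑ j ∈ univ.erase i, x j ^ k := by
      ext t
      rw [← add_sum_erase _ _ (mem_univ i), Function.update_self]
      congr 1
      exact sum_congr rfl fun j hj => by rw [Function.update_of_ne (ne_of_mem_erase hj)]
    rw [e]
    exact (hasDerivAt_pow k (x i)).add_const _
  have hF : HasDerivAt (fun t : ℝ => (∑ j, Function.update x i t j ^ 6) / 6 +
      eta * ((∑ j, Function.update x i t j ^ 2) + lam * aeval (Function.update x i t) f))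
      ((((6 : ℕ) : ℝ) * x i ^ (6 - 1)) / 6 + eta * ((((2 : ℕ) : ℝ) * x i ^ (2 - 1)) + lam * aeval x (pderiv i f))) (x i) :=
    ((hsum 6).div_const 6).add (((hsum 2).add ((hasDerivAt_aeval f x i).const_mul lam)).const_mul eta)
  have hmin : IsLocalMin (fun t : ℝ => (∑ j, Function.update x i t j ^ 6) / 6 +
      eta * ((∑ j, Function.update x i t j ^ 2) + lam * aeval (Function.update x i t) f)) (x i) := by
    refine Filter.Eventually.of_forall fun t => ?_
    have := h (Function.update x i t)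
    simpa using this
  have h0 := hmin.hasDerivAt_eq_zero hF
  have e5 : x i ^ 5 + eta * (2 * x i + lam * aeval x (pderiv i f)) =
      (((6 : ℕ) : ℝ) * x i ^ (6 - 1)) / 6 + eta * ((((2 : ℕ) : ℝ) * x i ^ (2 - 1)) + lam * aeval x (pderiv i f)) := by
    norm_num
  rw [e5]
  exact h0

end Pool.Agent.Lib.MP_6ff0c5_lc.Gap
end

section

/-!
Gap theorem (MP_6ff0c5_lc): the core statement with explicit bounds.
-/

set_option autoImplicit false

open Finset Filter Topology MvPolynomial

namespace Pool.Agent.Lib.MP_6ff0c5_lc.Gap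

variable {n : ℕ}

/-- the regularised functional -/
noncomputable def W (f : MvPolynomial (Fin n) ℤ) (l : ℝ) (x : Fin n → ℝ) : ℝ := (∑ i, x i ^ 2) + l * aeval x f

theorem continuous_W (f : MvPolynomial (Fin n) ℤ) (l : ℝ) : Continuous (W f l) := by
  unfold W
  have := continuous_aeval' f
  fun_prop

theorem gap_core {f : MvPolynomial (Fin n) ℤ} {A : ℕ} (hdeg : f.totalDegree ≤ 4) (hA : l1 f ≤ A)
    (hf : ∀ x : Fin n → ℝ, 0 ≤ aeval x f) :
    ((∃ x : Fin n → ℝ, aeval x f = 0) →
      ∃ x : Fin n → ℝ, (∑ i, x i ^ 2) ≤ (qB n A (4 * A) : ℝ) ∧ aeval x f = 0) ∧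
    (∀ V : ℕ, (∃ x : Fin n → ℝ, (∑ i, x i ^ 2) ≤ V ∧
      (qB n A (4 * A) : ℝ) * ((V : ℝ) + 1 + 5 ^ n) ^ (5 ^ n) * aeval x f < 1) →
        ∃ x : Fin n → ℝ, aeval x f = 0) := by
  classical
  -- minimisers
  have hex1 : ∀ l : ℝ, ∃ x : Fin n → ℝ, 0 ≤ l → ∀ y, W f l x ≤ W f l y := by
    intro l
    by_cases hl : 0 ≤ l
    · obtain ⟨x, hx⟩ := exists_min (continuous_W f l) (c := 1) one_pos (by
        intro x
        unfold W
        have := mul_nonneg hl (hf x)
        linarith)
      exact ⟨x, fun _ => hx⟩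
    · exact ⟨0, fun h => absurd h hl⟩
  choose a ha using hex1
  set H : ℝ → ℝ → (Fin n → ℝ) → ℝ := fun l e x => (∑ i, x i ^ 6) / 6 + e * W f l x with hH
  have hex2 : ∀ l e : ℝ, ∃ x : Fin n → ℝ, 0 < l → 0 < e → ∀ y, H l e x ≤ H l e y := by
    intro l e
    by_cases hl : 0 < l
    · by_cases he : 0 < e
      · have hcont : Continuous (H l e) := by
          have := continuous_W f l
          rw [hH]
          fun_prop
        obtain ⟨x, hx⟩ := exists_min hcont he (by
          intro x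
          simp only [hH]
          have h6 : 0 ≤ ∑ i, x i ^ 6 := sum_nonneg fun i _ => by positivity
          have h7 : ∑ i, x i ^ 2 ≤ W f l x := by
            unfold W
            have := mul_nonneg hl.le (hf x)
            linarith
          have := mul_le_mul_of_nonneg_left h7 he.le
          linarith)
        exact ⟨x, fun _ _ => hx⟩
      · exact ⟨0, fun _ h => absurd h he⟩
    · exact ⟨0, fun h => absurd h hl⟩
  choose b hb using hex2
  set g : ℝ → ℝ := fun l => W f l (a l) with hg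
  set w : ℝ → ℝ → ℝ := fun l e => W f l (b l e) with hwdef
  obtain ⟨Q, hQ0, hQ1, hQ2, hQ3⟩ := exists_Q (f := f) (P := fun i => pderiv i f) (A := A) (B := 4 * A) hA hdeg
    (fun i => (l1_pderiv_le f i hdeg).trans (Nat.mul_le_mul_left _ hA)) (fun i => totalDegree_pderiv_le f i hdeg)
  have hw : ∀ l, 0 < l → Tendsto (w l) atTop (𝓝 (g l)) := by
    intro l hl
    have hup : Tendsto (fun e : ℝ => g l + ((∑ i, a l i ^ 6) / 6) / e) atTop (𝓝 (g l + 0)) :=
      tendsto_const_nhds.add (tendsto_const_nhds.div_atTop tendsto_id)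
    rw [add_zero] at hup
    refine tendsto_of_tendsto_of_tendsto_of_le_of_le' tendsto_const_nhds hup
      (Filter.Eventually.of_forall fun e => ha l hl.le _) ?_
    filter_upwards [eventually_gt_atTop 0] with e he
    have h1 := hb l e hl he (a l)
    simp only [hH] at h1
    have h6 : 0 ≤ ∑ i, b l e i ^ 6 := sum_nonneg fun i _ => by positivity
    have h2 : e * w l e ≤ e * (g l + ((∑ i, a l i ^ 6) / 6) / e) := by
      have : e * (g l + ((∑ i, a l i ^ 6) / 6) / e) = e * g l + (∑ i, a l i ^ 6) / 6 := by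
        field_simp
      rw [this]
      simp only [hg, hwdef]
      linarith
    exact le_of_mul_le_mul_left h2 he
  have h0 : ∀ l, 0 < l → ∀ᶠ e in atTop, aeval ![w l e, l, e] Q = 0 := by
    intro l hl
    filter_upwards [eventually_gt_atTop 0] with e he
    exact hQ3 l e (b l e) (crit_of_min (hb l e hl he))
  obtain ⟨alg1, alg2⟩ := alg_part hQ0 hQ2 hw h0
  have hmono : ∀ l l', 0 ≤ l → l ≤ l' → g l ≤ g l' := by
    intro l l' hl hll
    refine (ha l hl (a l')).trans ?_
    simp only [hg, W]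
    have := mul_le_mul_of_nonneg_right hll (hf (a l'))
    linarith
  have hR : ∀ l, 0 ≤ l → ∑ i, a l i ^ 2 ≤ g l := by
    intro l hl
    simp only [hg, W]
    have := mul_nonneg hl (hf (a l))
    linarith
  have hbdd : ∀ M : ℝ, (∀ l, 0 < l → g l ≤ M) → ∃ x : Fin n → ℝ, (∑ i, x i ^ 2) ≤ M ∧ aeval x f = 0 := by
    intro M hM
    have hcomp : IsCompact {x : Fin n → ℝ | (∑ i, x i ^ 2) ≤ M} := by
      apply Metric.isCompact_of_isClosed_isBounded
      · exact isClosed_le (by fun_prop) continuous_const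
      · rw [Metric.isBounded_iff_subset_closedBall 0]
        refine ⟨Real.sqrt M, fun x hx => ?_⟩
        rw [mem_closedBall_zero_iff]
        apply Real.le_sqrt_of_sq_le
        exact (norm_sq_le_sum x).trans hx
    obtain ⟨y, hy, hymin⟩ := hcomp.exists_isMinOn ⟨a 1, (hR 1 zero_le_one).trans (hM 1 one_pos)⟩
      (continuous_aeval' f).continuousOn
    refine ⟨y, hy, ?_⟩
    by_contra hne
    have hpos : 0 < aeval y f := lt_of_le_of_ne (hf y) (Ne.symm hne)
    have hM0 : 0 ≤ M := (sum_nonneg fun i _ => sq_nonneg _).trans ((hR 1 zero_le_one).trans (hM 1 one_pos))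
    set l : ℝ := (M + 1) / aeval y f with hl
    have hlpos : 0 < l := by positivity
    have h1 : aeval y f ≤ aeval (a l) f := hymin (show a l ∈ {x : Fin n → ℝ | (∑ i, x i ^ 2) ≤ M} from
      (hR l hlpos.le).trans (hM l hlpos))
    have h2 : l * aeval (a l) f ≤ M := by
      have h3 := hM l hlpos
      simp only [hg, W] at h3
      have h4 : 0 ≤ ∑ i, a l i ^ 2 := sum_nonneg fun i _ => sq_nonneg _
      linarith
    have h5 : l * aeval y f = M + 1 := by rw [hl]; field_simp
    have := mul_le_mul_of_nonneg_left h1 hlpos.le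
    linarith
  constructor
  · rintro ⟨z, hz⟩
    have hgz : ∀ l, 0 ≤ l → g l ≤ ∑ i, z i ^ 2 := by
      intro l hl
      refine (ha l hl z).trans ?_
      unfold W
      rw [hz, mul_zero, add_zero]
    have hm : Monotone fun l : ℝ => g (max l 0) := fun l l' h => hmono _ _ (le_max_right _ _) (max_le_max_right _ h)
    have hbd : BddAbove (Set.range fun l : ℝ => g (max l 0)) := ⟨∑ i, z i ^ 2, by
      rintro _ ⟨l, rfl⟩
      exact hgz _ (le_max_right _ _)⟩
    have ht := tendsto_atTop_ciSup hm hbd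
    set G := ⨆ l : ℝ, g (max l 0) with hG
    have ht' : Tendsto g atTop (𝓝 G) := by
      refine ht.congr' ?_
      filter_upwards [eventually_ge_atTop 0] with l hl
      rw [max_eq_left hl]
    have hG1 := alg1 G ht'
    apply hbdd
    intro l hl
    have h1 : g l ≤ G := by
      have := le_ciSup hbd l
      simpa only [max_eq_left hl.le] using this
    refine (h1.trans (le_abs_self G)).trans (hG1.trans ?_)
    exact_mod_cast hQ1
  · rintro V ⟨x, hx, hxf⟩
    by_contra hcon
    obtain ⟨v, hv1, hv2, hv3⟩ := alg2 (V + 1) (by omega)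
    obtain ⟨L, hL, hgL⟩ : ∃ L, 0 < L ∧ (v : ℝ) ≤ g L := by
      by_contra hno
      push Not at hno
      obtain ⟨y, _, hy⟩ := hbdd v fun l hl => (hno l hl).le
      exact hcon ⟨y, hy⟩
    have hg0 : ∑ i, a 0 i ^ 2 = 0 := by
      have h1 := ha 0 le_rfl 0
      unfold W at h1
      simp only [zero_mul, add_zero, Pi.zero_apply] at h1
      have h2 : ∑ i : Fin n, (0 : ℝ) ^ 2 = 0 := by simp
      rw [h2] at h1
      exact le_antisymm h1 (sum_nonneg fun i _ => sq_nonneg _)
    have ha0 : a 0 = 0 := by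
      rw [sum_eq_zero_iff_of_nonneg fun i _ => sq_nonneg _] at hg0
      ext i
      have := hg0 i (mem_univ i)
      simpa using this
    have hgz : g 0 = 0 := by
      simp only [hg, W]
      rw [hg0]
      ring
    set F0 : ℝ := aeval (0 : Fin n → ℝ) f with hF0
    have hFa : ∀ l, 0 ≤ l → aeval (a l) f ≤ F0 := by
      intro l hl
      rcases hl.eq_or_lt with rfl | hl
      · rw [ha0]
      · have h1 := ha l hl.le 0
        unfold W at h1
        have h2 : ∑ i : Fin n, (0 : Fin n → ℝ) i ^ 2 = 0 := by simp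
        rw [h2] at h1
        have h4 : 0 ≤ ∑ i, a l i ^ 2 := sum_nonneg fun i _ => sq_nonneg _
        have h5 : l * aeval (a l) f ≤ l * F0 := by
          rw [hF0]
          linarith
        exact le_of_mul_le_mul_left h5 hl
    have hlip : ∀ l l', 0 ≤ l → l ≤ l' → g l' - g l ≤ F0 * (l' - l) := by
      intro l l' hl hll
      have h1 := ha l' (hl.trans hll) (a l)
      have h2 := mul_le_mul_of_nonneg_right (hFa l hl) (sub_nonneg.2 hll)
      simp only [hg]
      unfold W at h1 ⊢
      linarith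
    have hcont : ContinuousOn g (Set.Icc 0 L) := by
      have : LipschitzOnWith F0.toNNReal g (Set.Icc 0 L) := by
        apply LipschitzOnWith.of_dist_le_mul
        intro l hl l' hl'
        rw [Real.coe_toNNReal _ (hf 0), Real.dist_eq, Real.dist_eq]
        rcases le_total l l' with h | h
        · rw [abs_sub_comm, abs_sub_comm l l', abs_of_nonneg (sub_nonneg.2 (hmono _ _ hl.1 h)),
            abs_of_nonneg (sub_nonneg.2 h)]
          exact hlip _ _ hl.1 h
        · rw [abs_of_nonneg (sub_nonneg.2 (hmono _ _ hl'.1 h)), abs_of_nonneg (sub_nonneg.2 h)]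
          exact hlip _ _ hl'.1 h
      exact this.continuousOn
    have hv0 : (0 : ℝ) ≤ v := Nat.cast_nonneg v
    obtain ⟨l0, hl0, hl0v⟩ := intermediate_value_Icc hL.le hcont (show (v : ℝ) ∈ Set.Icc (g 0) (g L) from
      ⟨by rw [hgz]; exact hv0, hgL⟩)
    have hv1' : (V : ℝ) + 1 ≤ v := by exact_mod_cast hv1
    have hVnn : (0 : ℝ) ≤ V := Nat.cast_nonneg V
    have hl0pos : 0 < l0 := by
      rcases hl0.1.eq_or_lt with h | h
      · rw [← h, hgz] at hl0v
        linarith
      · exact h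
    have h5 := hv3 l0 hl0pos hl0v
    have h6 : l0 ≤ (qB n A (4 * A) : ℝ) * ((V : ℝ) + 1 + 5 ^ n) ^ (5 ^ n) := by
      refine h5.trans ?_
      have h7 : (l1 Q : ℝ) ≤ (qB n A (4 * A) : ℝ) := by exact_mod_cast hQ1
      have h8 : (v : ℝ) ≤ (V : ℝ) + 1 + 5 ^ n := by exact_mod_cast hv2
      gcongr
    have h9 := ha l0 hl0pos.le x
    have h10 : W f l0 (a l0) = v := hl0v
    rw [h10] at h9
    unfold W at h9
    have h11 := mul_le_mul_of_nonneg_right h6 (hf x)
    linarith

end Pool.Agent.Lib.MP_6ff0c5_lc.Gap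
end

section

/-!
Gap theorem (MP_6ff0c5_lc): the statement in doubly exponential form.

`gap_quartic`: let `f` be an integer polynomial in `n` variables, nonnegative on `ℝⁿ`, of total degree at most `4`,
whose coefficients have the sum of absolute values at most `2 ^ a`.  Let `N = a + 4 n + 8`.
* If `f` has a real zero, then it has one with `|x_i| ≤ 2 ^ (2 ^ N1)` for all `i`, for every `N1 ≥ N`.
* If `N1 ≥ N`, `N2 ≥ N1 + N` and there is a point with `|x_i| ≤ 2 ^ (2 ^ N1)` and `f x ≤ 1 / 2 ^ (2 ^ N2)`, then `f` has a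
  real zero.

`gap_system`: the same for a system of equations `g_l = 0` of total degree at most `2`.
-/

set_option autoImplicit false

open Finset Filter Topology MvPolynomial

namespace Pool.Agent.Lib.MP_6ff0c5_lc.Gap

variable {n : ℕ}

/-- the exponent of the gap theorem -/
def gapN (n a : ℕ) : ℕ := a + 4 * n + 8

theorem five_pow_le (n : ℕ) : 5 ^ n ≤ 2 ^ (3 * n) := by
  rw [pow_mul]
  exact Nat.pow_le_pow_left (by norm_num) n

theorem qB_le (n a A : ℕ) (hA : A ≤ 2 ^ a) : qB n A (4 * A) ≤ 2 ^ (2 ^ (gapN n a)) := by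
  have hn : n ≤ 2 ^ n := Nat.lt_two_pow_self.le
  have h1 : n + A ≤ 2 ^ (n + a + 1) := by
    have h2 : 2 ^ n ≤ 2 ^ (n + a) := Nat.pow_le_pow_right (by norm_num) (by omega)
    have h3 : 2 ^ a ≤ 2 ^ (n + a) := Nat.pow_le_pow_right (by norm_num) (by omega)
    have h4 : 2 ^ (n + a + 1) = 2 ^ (n + a) + 2 ^ (n + a) := by ring
    omega
  have h2 : 2 + 4 * A ≤ 2 ^ (a + 3) := by
    have h3 : 1 ≤ 2 ^ a := Nat.one_le_two_pow
    have h4 : 2 ^ (a + 3) = 8 * 2 ^ a := by ring
    omega
  have h3 : rowB n A (4 * A) ≤ 2 ^ (2 ^ (a + n + 8)) := by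
    have h4 : (2 + 4 * A) ^ (4 + 4 * n) ≤ 2 ^ ((a + 3) * (4 + 4 * n)) := by
      rw [pow_mul]
      exact Nat.pow_le_pow_left h2 _
    have h5 : (n + A) * (2 + 4 * A) ^ (4 + 4 * n) ≤ 2 ^ ((n + a + 1) + (a + 3) * (4 + 4 * n)) := by
      rw [pow_add 2 (n + a + 1)]
      exact Nat.mul_le_mul h1 h4
    have h6 : rowB n A (4 * A) ≤ 2 ^ ((n + a + 1) + (a + 3) * (4 + 4 * n) + 1) := by
      unfold rowB
      have h7 : 1 ≤ 2 ^ ((n + a + 1) + (a + 3) * (4 + 4 * n)) := Nat.one_le_two_pow
      rw [pow_succ]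
      omega
    refine h6.trans (Nat.pow_le_pow_right (by norm_num) ?_)
    have ha : a + 1 ≤ 2 ^ a := Nat.lt_two_pow_self
    have hn' : n + 1 ≤ 2 ^ n := Nat.lt_two_pow_self
    have h8 : (n + a + 1) + (a + 3) * (4 + 4 * n) + 1 ≤ 18 * ((a + 1) * (n + 1)) := by nlinarith
    have h9 : (a + 1) * (n + 1) ≤ 2 ^ a * 2 ^ n := Nat.mul_le_mul ha hn'
    have h10 : 2 ^ (a + n + 8) = 256 * (2 ^ a * 2 ^ n) := by rw [pow_add, pow_add]; ring
    rw [h10]
    calc (n + a + 1) + (a + 3) * (4 + 4 * n) + 1 ≤ 18 * ((a + 1) * (n + 1)) := h8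
      _ ≤ 256 * (2 ^ a * 2 ^ n) := Nat.mul_le_mul (by norm_num) h9
  unfold qB gapN
  calc rowB n A (4 * A) ^ 5 ^ n ≤ (2 ^ (2 ^ (a + n + 8))) ^ (5 ^ n) := Nat.pow_le_pow_left h3 _
    _ = 2 ^ (2 ^ (a + n + 8) * 5 ^ n) := by rw [← pow_mul]
    _ ≤ 2 ^ (2 ^ (a + 4 * n + 8)) := by
        refine Nat.pow_le_pow_right (by norm_num) ?_
        calc 2 ^ (a + n + 8) * 5 ^ n ≤ 2 ^ (a + n + 8) * 2 ^ (3 * n) := Nat.mul_le_mul_left _ (five_pow_le n)
          _ = 2 ^ (a + 4 * n + 8) := by rw [← pow_add]; congr 1; ring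

theorem lam_le (n a A N1 N2 : ℕ) (hA : A ≤ 2 ^ a) (h1 : gapN n a ≤ N1) (h2 : N1 + gapN n a ≤ N2) :
    2 * (qB n A (4 * A) * (n * 2 ^ (2 ^ (N1 + 1)) + 1 + 5 ^ n) ^ (5 ^ n)) ≤ 2 ^ (2 ^ N2) := by
  have hq := qB_le n a A hA
  have hn : n ≤ 2 ^ n := Nat.lt_two_pow_self.le
  have h5 := five_pow_le n
  have hT : 1 ≤ 2 ^ (2 ^ (N1 + 1)) := Nat.one_le_two_pow
  have h3 : n * 2 ^ (2 ^ (N1 + 1)) + 1 + 5 ^ n ≤ 2 ^ (2 ^ (N1 + 1)) * 2 ^ (3 * n + 2) := by
    have h31 : 2 ^ n ≤ 2 ^ (3 * n) := Nat.pow_le_pow_right (by norm_num) (by omega)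
    have h32 : 1 ≤ 2 ^ (3 * n) := Nat.one_le_two_pow
    have h33 : 2 ^ (3 * n + 2) = 4 * 2 ^ (3 * n) := by ring
    rw [h33]
    nlinarith
  have h4 : n * 2 ^ (2 ^ (N1 + 1)) + 1 + 5 ^ n ≤ 2 ^ (2 ^ (N1 + 2)) := by
    refine h3.trans ?_
    rw [← pow_add]
    refine Nat.pow_le_pow_right (by norm_num) ?_
    have h41 : 2 ^ (N1 + 2) = 2 ^ (N1 + 1) + 2 ^ (N1 + 1) := by ring
    have h42 : N1 + 1 < 2 ^ (N1 + 1) := Nat.lt_two_pow_self
    unfold gapN at h1
    omega
  have h6 : (n * 2 ^ (2 ^ (N1 + 1)) + 1 + 5 ^ n) ^ (5 ^ n) ≤ 2 ^ (2 ^ (N1 + 2 + 3 * n)) := by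
    calc (n * 2 ^ (2 ^ (N1 + 1)) + 1 + 5 ^ n) ^ (5 ^ n) ≤ (2 ^ (2 ^ (N1 + 2))) ^ (5 ^ n) := Nat.pow_le_pow_left h4 _
      _ = 2 ^ (2 ^ (N1 + 2) * 5 ^ n) := by rw [← pow_mul]
      _ ≤ 2 ^ (2 ^ (N1 + 2 + 3 * n)) := by
        refine Nat.pow_le_pow_right (by norm_num) ?_
        rw [pow_add _ (N1 + 2)]
        exact Nat.mul_le_mul_left _ h5
  have h7 : qB n A (4 * A) ≤ 2 ^ (2 ^ (N1 + 2 + 3 * n)) := by
    refine hq.trans (Nat.pow_le_pow_right (by norm_num) (Nat.pow_le_pow_right (by norm_num) (by omega)))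
  calc 2 * (qB n A (4 * A) * (n * 2 ^ (2 ^ (N1 + 1)) + 1 + 5 ^ n) ^ (5 ^ n))
      ≤ 2 ^ 1 * (2 ^ (2 ^ (N1 + 2 + 3 * n)) * 2 ^ (2 ^ (N1 + 2 + 3 * n))) :=
        Nat.mul_le_mul (by norm_num) (Nat.mul_le_mul h7 h6)
    _ = 2 ^ (1 + (2 ^ (N1 + 2 + 3 * n) + 2 ^ (N1 + 2 + 3 * n))) := by rw [← pow_add, ← pow_add]
    _ ≤ 2 ^ (2 ^ N2) := by
        refine Nat.pow_le_pow_right (by norm_num) ?_
        have h71 : 2 ^ (N1 + 2 + 3 * n + 2) ≤ 2 ^ N2 := Nat.pow_le_pow_right (by norm_num) (by unfold gapN at h2; omega)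
        have h72 : 2 ^ (N1 + 2 + 3 * n + 2) = 4 * 2 ^ (N1 + 2 + 3 * n) := by ring
        have h73 : 1 ≤ 2 ^ (N1 + 2 + 3 * n) := Nat.one_le_two_pow
        omega

/-- **Gap theorem**, quartic form. -/
theorem gap_quartic {f : MvPolynomial (Fin n) ℤ} {a : ℕ} (hdeg : f.totalDegree ≤ 4) (hA : l1 f ≤ 2 ^ a)
    (hf : ∀ x : Fin n → ℝ, 0 ≤ aeval x f) :
    ((∃ x : Fin n → ℝ, aeval x f = 0) → ∀ N1, gapN n a ≤ N1 →
      ∃ x : Fin n → ℝ, (∀ i, |x i| ≤ 2 ^ (2 ^ N1)) ∧ aeval x f = 0) ∧
    (∀ N1 N2, gapN n a ≤ N1 → N1 + gapN n a ≤ N2 →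
      (∃ x : Fin n → ℝ, (∀ i, |x i| ≤ 2 ^ (2 ^ N1)) ∧ aeval x f ≤ 1 / 2 ^ (2 ^ N2)) →
        ∃ x : Fin n → ℝ, aeval x f = 0) := by
  obtain ⟨h1, h2⟩ := gap_core hdeg hA hf
  constructor
  · intro hz N1 hN1
    obtain ⟨x, hx, hxf⟩ := h1 hz
    refine ⟨x, fun i => ?_, hxf⟩
    have h3 : (qB n (2 ^ a) (4 * 2 ^ a) : ℝ) ≤ 2 ^ (2 ^ N1) := by
      have := (qB_le n a (2 ^ a) le_rfl).trans (Nat.pow_le_pow_right (by norm_num : 0 < 2)
        (Nat.pow_le_pow_right (by norm_num : 0 < 2) hN1))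
      exact_mod_cast this
    have h4 : x i ^ 2 ≤ ∑ i, x i ^ 2 := single_le_sum (f := fun i => x i ^ 2) (fun i _ => sq_nonneg _) (mem_univ i)
    have h5 : (1 : ℝ) ≤ 2 ^ (2 ^ N1) := one_le_pow₀ (by norm_num)
    have h6 : |x i| ^ 2 ≤ (2 ^ (2 ^ N1)) ^ 2 := by
      rw [sq_abs]
      calc x i ^ 2 ≤ 2 ^ (2 ^ N1) := h4.trans (hx.trans h3)
        _ ≤ (2 ^ (2 ^ N1)) ^ 2 := by
          rw [pow_two]
          exact le_mul_of_one_le_left (by positivity) h5
    exact (pow_le_pow_iff_left₀ (abs_nonneg _) (by positivity) two_ne_zero).1 h6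
  · rintro N1 N2 hN1 hN2 ⟨x, hx, hxf⟩
    apply h2 (n * 2 ^ (2 ^ (N1 + 1)))
    refine ⟨x, ?_, ?_⟩
    · calc ∑ i, x i ^ 2 ≤ ∑ i : Fin n, ((2 : ℝ) ^ (2 ^ (N1 + 1))) := by
            refine sum_le_sum fun i _ => ?_
            rw [← sq_abs, pow_succ 2 N1, pow_mul]
            exact pow_le_pow_left₀ (abs_nonneg _) (hx i) 2
        _ = ((n * 2 ^ (2 ^ (N1 + 1)) : ℕ) : ℝ) := by
            rw [sum_const, card_univ, Fintype.card_fin, nsmul_eq_mul]
            push_cast
            rfl
    · have h3 := lam_le n a (2 ^ a) N1 N2 le_rfl hN1 hN2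
      have h4 : 2 * ((qB n (2 ^ a) (4 * 2 ^ a) : ℝ) *
          (((n * 2 ^ (2 ^ (N1 + 1)) : ℕ) : ℝ) + 1 + 5 ^ n) ^ (5 ^ n)) ≤ 2 ^ (2 ^ N2) := by
        exact_mod_cast h3
      set Λ : ℝ := (qB n (2 ^ a) (4 * 2 ^ a) : ℝ) * (((n * 2 ^ (2 ^ (N1 + 1)) : ℕ) : ℝ) + 1 + 5 ^ n) ^ (5 ^ n) with hΛ
      have hΛ0 : 0 ≤ Λ := by positivity
      have h5 : Λ * aeval x f ≤ Λ * (1 / 2 ^ (2 ^ N2)) := mul_le_mul_of_nonneg_left hxf hΛ0
      have hpos : (0 : ℝ) < 2 ^ (2 ^ N2) := by positivity
      have h6 : Λ * (1 / 2 ^ (2 ^ N2)) ≤ 1 / 2 := by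
        rw [mul_one_div, div_le_iff₀ hpos]
        linarith
      linarith

/-- **Gap theorem** for a system of equations of total degree at most `2`. -/
theorem gap_system {ι : Type*} [Fintype ι] {g : ι → MvPolynomial (Fin n) ℤ} {a : ℕ}
    (hdeg : ∀ l, (g l).totalDegree ≤ 2) (hA : ∑ l, l1 (g l) ^ 2 ≤ 2 ^ a) (hM : Fintype.card ι ≤ 2 ^ a) :
    ((∃ x : Fin n → ℝ, ∀ l, aeval x (g l) = 0) → ∀ N1, gapN n a ≤ N1 →
      ∃ x : Fin n → ℝ, (∀ i, |x i| ≤ 2 ^ (2 ^ N1)) ∧ ∀ l, aeval x (g l) = 0) ∧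
    (∀ N1 N2, gapN n a ≤ N1 → N1 + gapN n a ≤ N2 →
      (∃ x : Fin n → ℝ, (∀ i, |x i| ≤ 2 ^ (2 ^ N1)) ∧ ∀ l, |aeval x (g l)| ≤ 1 / 2 ^ (2 ^ N2)) →
        ∃ x : Fin n → ℝ, ∀ l, aeval x (g l) = 0) := by
  classical
  set f : MvPolynomial (Fin n) ℤ := ∑ l, g l ^ 2 with hf
  have hev : ∀ x : Fin n → ℝ, aeval x f = ∑ l, (aeval x (g l)) ^ 2 := by
    intro x
    rw [hf, map_sum]
    exact sum_congr rfl fun l _ => by rw [map_pow]
  have hz : ∀ x : Fin n → ℝ, aeval x f = 0 ↔ ∀ l, aeval x (g l) = 0 := by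
    intro x
    rw [hev, sum_eq_zero_iff_of_nonneg fun l _ => sq_nonneg _]
    constructor
    · intro h l
      exact pow_eq_zero_iff two_ne_zero |>.1 (h l (mem_univ l))
    · intro h l _
      rw [h l]
      norm_num
  have hdeg4 : f.totalDegree ≤ 4 := by
    refine (totalDegree_finsetSum _ _).trans (Finset.sup_le fun l _ => ?_)
    refine (totalDegree_pow _ _).trans ?_
    have := hdeg l
    omega
  have hl1 : l1 f ≤ 2 ^ a := by
    refine (l1_sum_le _ _).trans (le_trans (sum_le_sum fun l _ => ?_) hA)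
    rw [pow_two, pow_two]
    exact l1_mul_le _ _
  obtain ⟨h1, h2⟩ := gap_quartic hdeg4 hl1 fun x => by
    rw [hev]
    exact sum_nonneg fun l _ => sq_nonneg _
  constructor
  · rintro ⟨x, hx⟩ N1 hN1
    obtain ⟨y, hy, hy0⟩ := h1 ⟨x, (hz x).2 hx⟩ N1 hN1
    exact ⟨y, hy, (hz y).1 hy0⟩
  · rintro N1 N2 hN1 hN2 ⟨x, hx, hxg⟩
    suffices hsmall : aeval x f ≤ 1 / 2 ^ (2 ^ N2) by
      obtain ⟨y, hy⟩ := h2 N1 N2 hN1 hN2 ⟨x, hx, hsmall⟩
      exact ⟨y, (hz y).1 hy⟩
    rw [hev]
    have ha : (Fintype.card ι : ℝ) ≤ 2 ^ (2 ^ N2) := by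
      have h3 : Fintype.card ι ≤ 2 ^ (2 ^ N2) := by
        refine hM.trans (Nat.pow_le_pow_right (by norm_num) ?_)
        have h4 : N2 < 2 ^ N2 := Nat.lt_two_pow_self
        unfold gapN at hN2
        omega
      exact_mod_cast h3
    have hpos : (0 : ℝ) < 2 ^ (2 ^ N2) := by positivity
    calc ∑ l, (aeval x (g l)) ^ 2 ≤ ∑ _l : ι, ((1 : ℝ) / 2 ^ (2 ^ N2)) ^ 2 := by
          refine sum_le_sum fun l _ => ?_
          rw [← sq_abs]
          exact pow_le_pow_left₀ (abs_nonneg _) (hxg l) 2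
      _ = (Fintype.card ι : ℝ) * ((1 : ℝ) / 2 ^ (2 ^ N2)) ^ 2 := by
          rw [sum_const, card_univ, nsmul_eq_mul]
      _ ≤ 2 ^ (2 ^ N2) * ((1 : ℝ) / 2 ^ (2 ^ N2)) ^ 2 := by gcongr
      _ = 1 / 2 ^ (2 ^ N2) := by
          field_simp

end Pool.Agent.Lib.MP_6ff0c5_lc.Gap
end
end
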